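import Mathlib

set_option autoImplicit false

open Filter Topology

namespace Pool.Agent.Lib.MP_b68431_pr

/-! ### Deterministic recursions for the moments, in levels relative to the barrier -/

/-- mean displacement operator of the killed critical process -/
noncomputable def hopR (a : ℕ → ℝ) : ℕ → ℝ
  | 0 => a 1
  | r + 1 => a (r + 2) + 1 / 4 * a r

lemma hopR_mono {a b : ℕ → ℝ} (h : ∀ r, a r ≤ b r) (r : ℕ) : hopR a r ≤ hopR b r := by
  cases r with
  | zero => exact h 1
  | succ r =>
    simp only [hopR]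
    have := h (r + 2)
    have := h r
    linarith

lemma hopR_nonneg {a : ℕ → ℝ} (h : ∀ r, 0 ≤ a r) (r : ℕ) : 0 ≤ hopR a r := by
  cases r with
  | zero => exact h 1
  | succ r =>
    simp only [hopR]
    have := h (r + 2)
    have := h r
    linarith

/-- expected number of visits -/
noncomputable def f : ℕ → ℕ → ℕ → ℝ
  | 0, i, r => if r = i then 1 else 0
  | T + 1, i, r => (if r = i then 1 else 0) + hopR (f T i) r

lemma f_nonneg (T i r : ℕ) : 0 ≤ f T i r := by
  induction T generalizing r with
  | zero => unfold f; split_ifs <;> norm_num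
  | succ T ih =>
    unfold f
    have := hopR_nonneg ih r
    split_ifs <;> linarith

noncomputable def Phi (i r : ℕ) : ℝ := 2 * 2 ^ i * (1 / 2) ^ r * ((min r i : ℕ) + 1)

lemma Phi_nonneg (i r : ℕ) : 0 ≤ Phi i r := by unfold Phi; positivity

lemma Phi_super (i r : ℕ) : (if r = i then 1 else 0) + hopR (Phi i) r ≤ Phi i r := by
  have h2i : (0 : ℝ) < 2 ^ i := by positivity
  cases r with
  | zero =>
    simp only [hopR, Phi]
    rcases Nat.eq_zero_or_pos i with rfl | hi
    · norm_num
    · rw [if_neg (by omega), min_eq_left (by omega), min_eq_left (by omega)]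
      push_cast
      norm_num
      linarith
  | succ r =>
    simp only [hopR, Phi]
    set D : ℝ := (1 / 2) ^ r with hD
    have hD0 : 0 < D := by positivity
    have e1 : (1 / 2 : ℝ) ^ (r + 1) = D / 2 := by rw [pow_succ]; ring
    have e2 : (1 / 2 : ℝ) ^ (r + 2) = D / 4 := by rw [pow_succ, pow_succ]; ring
    rw [e1, e2]
    rcases lt_trichotomy (r + 1) i with hl | hl | hl
    · rw [if_neg (by omega), min_eq_left (by omega), min_eq_left (by omega), min_eq_left (by omega)]
      push_cast
      apply le_of_eq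
      ring
    · rw [if_pos hl, min_eq_right (by omega), min_eq_left (by omega), min_eq_right (by omega)]
      have h5 : (2 : ℝ) ^ i * D = 2 := by
        rw [← hl, hD, pow_succ]
        have : (2 : ℝ) ^ r * (1 / 2) ^ r = 1 := by rw [← mul_pow]; norm_num
        linear_combination 2 * this
      have h6 : (i : ℝ) = r + 1 := by rw [← hl]; push_cast; ring
      rw [h6]
      apply le_of_eq
      linear_combination (-1 / 2 : ℝ) * h5
    · rw [if_neg (by omega), min_eq_right (by omega), min_eq_right (by omega), min_eq_right (by omega)]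
      apply le_of_eq
      ring

lemma f_le_Phi (T i r : ℕ) : f T i r ≤ Phi i r := by
  induction T generalizing r with
  | zero =>
    have h1 := Phi_super i r
    have h2 := hopR_nonneg (Phi_nonneg i) r
    unfold f
    linarith
  | succ T ih =>
    have h1 := Phi_super i r
    have h2 := hopR_mono ih r
    unfold f
    linarith

lemma Phi_zero (i : ℕ) : Phi i 0 = 2 * 2 ^ i := by simp [Phi]

/-- the bound for second moments -/
noncomputable def Psi (i j r : ℕ) : ℝ :=
  2 ^ i * 2 ^ j * (1 / 2) ^ r * (336 - (1 / 2) ^ r * (8 * r ^ 2 + 80 * r + 240))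

lemma Psi_zero (i j : ℕ) : Psi i j 0 = 96 * (2 ^ i * 2 ^ j) := by
  simp only [Psi]; norm_num; ring

lemma poly_bound (r : ℕ) : (1 / 2 : ℝ) ^ r * (8 * r ^ 2 + 80 * r + 240) ≤ 336 := by
  induction r with
  | zero => norm_num
  | succ r ih =>
    rw [pow_succ]
    push_cast
    have hD : (0 : ℝ) < (1 / 2) ^ r := by positivity
    have hr : (0 : ℝ) ≤ r := by positivity
    nlinarith [mul_nonneg hD.le hr, mul_nonneg hD.le (mul_nonneg hr hr)]

lemma Psi_nonneg (i j r : ℕ) : 0 ≤ Psi i j r := by
  unfold Psi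
  have := poly_bound r
  have h2 : (0 : ℝ) < 2 ^ i * 2 ^ j * (1 / 2) ^ r := by positivity
  exact mul_nonneg h2.le (by linarith)

lemma Phi_le (i r : ℕ) : Phi i r ≤ 2 * 2 ^ i * (1 / 2) ^ r * (r + 1) := by
  unfold Phi
  have h1 : ((min r i : ℕ) : ℝ) ≤ r := by exact_mod_cast min_le_left r i
  have h2 : (0 : ℝ) < 2 * 2 ^ i * (1 / 2) ^ r := by positivity
  exact mul_le_mul_of_nonneg_left (by linarith) h2.le

lemma two_mul_half (r : ℕ) : (2 : ℝ) ^ r * (1 / 2) ^ r = 1 := by rw [← mul_pow]; norm_num

/-- key inequality for the second moments -/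
lemma Psi_super (i j r : ℕ) {x y : ℝ} (hy0 : 0 ≤ y) (hx : x ≤ Phi i r)
    (hy : y ≤ Phi j r) :
    (if r = i then y else 0) + (if r = j then x else 0) + hopR (Psi i j) r + 8 / 25 * (x * y) ≤
      Psi i j r := by
  set D : ℝ := (1 / 2) ^ r with hD
  have hD0 : 0 < D := by positivity
  have hi0 : (0 : ℝ) < 2 ^ i := by positivity
  have hj0 : (0 : ℝ) < 2 ^ j := by positivity
  have hr0 : (0 : ℝ) ≤ r := by positivity
  set A : ℝ := 2 ^ i * 2 ^ j * D with hA
  have hA0 : 0 < A := by positivity
  -- the source terms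
  have s1 : (if r = i then y else 0) ≤ A * (D * (2 * (r + 1))) := by
    split_ifs with h
    · subst h
      have h1 := hy.trans (Phi_le j r)
      have h2 := two_mul_half r
      rw [← hD] at h1 h2
      calc y ≤ 2 * 2 ^ j * D * (r + 1) := h1
        _ = A * (D * (2 * (r + 1))) := by
          rw [hA]; linear_combination -(2 * 2 ^ j * D * ((r : ℝ) + 1)) * h2
    · positivity
  have s2 : (if r = j then x else 0) ≤ A * (D * (2 * (r + 1))) := by
    split_ifs with h
    · subst h
      have h1 := hx.trans (Phi_le i r)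
      have h2 := two_mul_half r
      rw [← hD] at h1 h2
      calc x ≤ 2 * 2 ^ i * D * (r + 1) := h1
        _ = A * (D * (2 * (r + 1))) := by
          rw [hA]; linear_combination -(2 * 2 ^ i * D * ((r : ℝ) + 1)) * h2
    · positivity
  have s3 : x * y ≤ A * (D * (4 * (r + 1) ^ 2)) := by
    have h1 := hx.trans (Phi_le i r)
    have h2 := hy.trans (Phi_le j r)
    rw [← hD] at h1 h2
    calc x * y ≤ (2 * 2 ^ i * D * (r + 1)) * (2 * 2 ^ j * D * (r + 1)) :=
          mul_le_mul h1 h2 hy0 (by positivity)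
      _ = A * (D * (4 * (r + 1) ^ 2)) := by rw [hA]; ring
  have hPsi : Psi i j r = A * (336 - D * (8 * r ^ 2 + 80 * r + 240)) := by
    simp only [Psi, hA, hD]
  have hhop : hopR (Psi i j) r ≤ A * (336 - D * (8 * r ^ 2 + 80 * r + 240)
      + D * (-2 * r ^ 2 - 8 * r - 10)) := by
    cases r with
    | zero =>
      simp only [hopR, Psi, hA, hD]
      have : (0 : ℝ) < 2 ^ i * 2 ^ j := by positivity
      norm_num
      nlinarith
    | succ r =>
      simp only [hopR, Psi]
      have e1 : D = (1 / 2) ^ r / 2 := by rw [hD, pow_succ]; ring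
      have e2 : (1 / 2 : ℝ) ^ (r + 2) = (1 / 2) ^ r / 4 := by rw [pow_succ, pow_succ]; ring
      rw [e2, hA, e1]
      apply le_of_eq
      push_cast
      ring
  rw [hPsi]
  have hfin : A * (D * (2 * (r + 1))) + A * (D * (2 * (r + 1))) +
      A * (336 - D * (8 * r ^ 2 + 80 * r + 240) + D * (-2 * r ^ 2 - 8 * r - 10)) +
      8 / 25 * (A * (D * (4 * (r + 1) ^ 2))) ≤ A * (336 - D * (8 * r ^ 2 + 80 * r + 240)) := by
    have h3 : A * (D * (2 * (r + 1))) + A * (D * (2 * (r + 1))) +
      A * (336 - D * (8 * r ^ 2 + 80 * r + 240) + D * (-2 * r ^ 2 - 8 * r - 10)) +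
      8 / 25 * (A * (D * (4 * (r + 1) ^ 2))) - A * (336 - D * (8 * r ^ 2 + 80 * r + 240)) =
      -(A * D * (18 / 25 * r ^ 2 + 36 / 25 * r + 118 / 25)) := by ring
    have h4 : 0 ≤ A * D * (18 / 25 * r ^ 2 + 36 / 25 * r + 118 / 25) := by positivity
    linarith
  linarith

/-- monotonicity in the horizon -/
lemma f_mono (T i r : ℕ) : f T i r ≤ f (T + 1) i r := by
  induction T generalizing r with
  | zero =>
    have h := hopR_nonneg (fun r => f_nonneg 0 i r) r
    show (if r = i then (1 : ℝ) else 0) ≤ (if r = i then 1 else 0) + hopR (f 0 i) r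
    linarith
  | succ T ih =>
    have h := hopR_mono ih r
    show (if r = i then (1 : ℝ) else 0) + hopR (f T i) r ≤ (if r = i then 1 else 0) + hopR (f (T + 1) i) r
    linarith

/-- the limit of the expected number of visits, at the barrier -/
lemma f_tendsto (i : ℕ) : ∃ g0 : ℝ, 2 * 2 ^ i ≤ g0 ∧ Tendsto (fun T => f T i 0) atTop (𝓝 g0) := by
  have hmono : ∀ r, Monotone (fun T => f T i r) := fun r => monotone_nat_of_le_succ (fun T => f_mono T i r)
  have hbdd : ∀ r, BddAbove (Set.range (fun T => f T i r)) := by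
    intro r
    refine ⟨Phi i r, ?_⟩
    rintro _ ⟨T, rfl⟩
    exact f_le_Phi T i r
  have hlim : ∀ r, ∃ g, Tendsto (fun T => f T i r) atTop (𝓝 g) := fun r =>
    ⟨_, tendsto_atTop_ciSup (hmono r) (hbdd r)⟩
  choose g hg using hlim
  have hg0 : ∀ r, 0 ≤ g r := fun r => ge_of_tendsto' (hg r) (fun T => f_nonneg T i r)
  have hrec0 : g 0 = (if 0 = i then 1 else 0) + g 1 := by
    have h1 : Tendsto (fun T => f (T + 1) i 0) atTop (𝓝 (g 0)) := (hg 0).comp (tendsto_add_atTop_nat 1)
    have h2 : Tendsto (fun T => f (T + 1) i 0) atTop (𝓝 ((if 0 = i then 1 else 0) + g 1)) := by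
      have : (fun T => f (T + 1) i 0) = fun T => (if 0 = i then (1 : ℝ) else 0) + f T i 1 := by
        funext T; rfl
      rw [this]
      exact (hg 1).const_add _
    exact tendsto_nhds_unique h1 h2
  have hrec : ∀ r, g (r + 1) = (if r + 1 = i then 1 else 0) + (g (r + 2) + 1 / 4 * g r) := by
    intro r
    have h1 : Tendsto (fun T => f (T + 1) i (r + 1)) atTop (𝓝 (g (r + 1))) :=
      (hg (r + 1)).comp (tendsto_add_atTop_nat 1)
    have h2 : Tendsto (fun T => f (T + 1) i (r + 1)) atTop
        (𝓝 ((if r + 1 = i then 1 else 0) + (g (r + 2) + 1 / 4 * g r))) := by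
      have : (fun T => f (T + 1) i (r + 1)) =
          fun T => (if r + 1 = i then (1 : ℝ) else 0) + (f T i (r + 2) + 1 / 4 * f T i r) := by
        funext T; rfl
      rw [this]
      exact (((hg (r + 2)).add ((hg r).const_mul _))).const_add _
    exact tendsto_nhds_unique h1 h2
  have hsol : ∀ r, g r = (1 / 2) ^ r * ((r + 1) * g 0 - 2 * ((r - i : ℕ) : ℝ) * 2 ^ i) ∧
      g (r + 1) = (1 / 2) ^ (r + 1) * (((r + 1 : ℕ) + 1) * g 0 - 2 * ((r + 1 - i : ℕ) : ℝ) * 2 ^ i) := by
    intro r
    induction r with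
    | zero =>
      constructor
      · simp
      · rcases Nat.eq_zero_or_pos i with rfl | hi
        · simp at hrec0 ⊢
          linarith
        · rw [if_neg (by omega)] at hrec0
          rw [show 0 + 1 - i = 0 by omega]
          norm_num
          linarith
    | succ r ih =>
      refine ⟨ih.2, ?_⟩
      obtain ⟨h1, h2⟩ := ih
      have h3 := hrec r
      have h4 : g (r + 1 + 1) = g (r + 1) - (if r + 1 = i then 1 else 0) - 1 / 4 * g r := by
        rw [show r + 1 + 1 = r + 2 by omega]; linarith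
      rw [h4, h1, h2]
      rw [show r + 1 + 1 = r + 2 by omega]
      set D : ℝ := (1 / 2) ^ r with hD
      have e1 : (1 / 2 : ℝ) ^ (r + 1) = D / 2 := by rw [pow_succ]; ring
      have e2 : (1 / 2 : ℝ) ^ (r + 2) = D / 4 := by rw [pow_succ, pow_succ]; ring
      rw [e1, e2]
      rcases lt_trichotomy (r + 1) i with hl | hl | hl
      · rw [if_neg (by omega), show r - i = 0 by omega, show r + 1 - i = 0 by omega,
          show r + 2 - i = 0 by omega]
        push_cast
        ring
      · rw [if_pos hl, show r - i = 0 by omega, show r + 1 - i = 0 by omega,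
          show r + 2 - i = 1 by omega]
        have h5 : (2 : ℝ) ^ i * D = 2 := by
          rw [← hl, hD, pow_succ]
          have := two_mul_half r
          linear_combination 2 * this
        push_cast
        linear_combination (1 / 2 : ℝ) * h5
      · rw [if_neg (by omega)]
        have c1 : ((r - i : ℕ) : ℝ) = r - i := by rw [Nat.cast_sub (by omega)]
        have c2 : ((r + 1 - i : ℕ) : ℝ) = r + 1 - i := by rw [Nat.cast_sub (by omega)]; push_cast; ring
        have c3 : ((r + 2 - i : ℕ) : ℝ) = r + 2 - i := by rw [Nat.cast_sub (by omega)]; push_cast; ring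
        rw [c1, c2, c3]
        push_cast
        ring
  refine ⟨g 0, ?_, hg 0⟩
  -- nonnegativity far away forces `g 0 ≥ 2 * 2^i`
  by_contra hcon
  push Not at hcon
  have hge : ∀ t : ℕ, 2 * (t : ℝ) * 2 ^ i ≤ ((i : ℝ) + t + 1) * g 0 := by
    intro t
    have h1 := hg0 (i + t)
    rw [(hsol (i + t)).1, show i + t - i = t by omega] at h1
    push_cast at h1
    have h2 : (0 : ℝ) < (1 / 2) ^ (i + t) := by positivity
    have h3 := nonneg_of_mul_nonneg_right h1 h2
    linarith
  obtain ⟨t, ht⟩ := exists_nat_gt (((i : ℝ) + 1) * g 0 / (2 * 2 ^ i - g 0))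
  have hpos : 0 < 2 * 2 ^ i - g 0 := by linarith
  rw [div_lt_iff₀ hpos] at ht
  have := hge t
  nlinarith

end Pool.Agent.Lib.MP_b68431_pr
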