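import Mathlib

set_option autoImplicit false

open MeasureTheory ProbabilityTheory Filter
open scoped ENNReal

namespace Pool.Agent.Lib.MP_b68431_pr

/-! ### General definitions: random walks, branching random walks, trace, ends -/

section Walk
variable {V : Type}

/-- The law of the position at time `n` of the walk with transition kernel `P` started at `i`;
`walk P i n j` is `ℙ_i(X_n = j)`. -/
noncomputable def walk (P : V → PMF V) (i : V) : ℕ → PMF V
  | 0 => PMF.pure i
  | n + 1 => (walk P i n).bind P

/-- `limsup_n ℙ_i(X_n = j)^{1/n}`. -/
noncomputable def spectralRadius (P : V → PMF V) (i j : V) : ℝ≥0∞ :=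
  limsup (fun n : ℕ => (walk P i n j) ^ (1 / (n : ℝ))) atTop

/-- Irreducibility of the kernel. -/
def Irred (P : V → PMF V) : Prop := ∀ i j, ∃ n, walk P i n j ≠ 0

/-- Quasi-symmetry: `ℙ_i(X_n = j) ≤ C ℙ_j(X_n = i)` for all `i, j, n`. -/
def QuasiSymmetric (P : V → PMF V) : Prop :=
  ∃ C : ℝ≥0∞, C ≠ ∞ ∧ ∀ i j n, walk P i n j ≤ C * walk P j n i

/-- The mean of a law on `ℕ`. -/
noncomputable def mean (μ : PMF ℕ) : ℝ≥0∞ := ∑' k : ℕ, μ k * k

end Walk

section BRW
variable {V : Type}

/-- The data carried by one particle: its number of offspring, and for every `a` and every vertex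
`x` the vertex to which its `a`-th child moves if the particle sits at `x`. -/
abbrev Label (V : Type) := ℕ × (ℕ → V → V)

/-- The law of the data of one particle: the number of offspring has law `μ`, the `a`-th child of a
particle at `x` moves according to `P x`, and all these choices are independent. -/
noncomputable def labelLaw [MeasurableSpace V] (P : V → PMF V) (μ : PMF ℕ) :
    Measure (Label V) :=
  μ.toMeasure.prod (Measure.infinitePi fun _ : ℕ => Measure.infinitePi fun x : V => (P x).toMeasure)

/-- The probability space of the branching random walk. Particles are named by finite lists of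
natural numbers: `[]` is the initial particle, and the children of `u` are `0 :: u, 1 :: u, …`. All
particles carry independent data. -/
noncomputable def brwLaw [MeasurableSpace V] (P : V → PMF V) (μ : PMF ℕ) :
    Measure (List ℕ → Label V) :=
  Measure.infinitePi fun _ : List ℕ => labelLaw P μ

/-- `alive ω u`: the particle named `u` is born, that is, `a :: u` is born if `u` is born and has
more than `a` offspring. -/
def alive (ω : List ℕ → Label V) : List ℕ → Prop
  | [] => True
  | a :: u => alive ω u ∧ a < (ω u).1

/-- The position of the particle named `u`, if the initial particle is at `i`. -/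
def pos (ω : List ℕ → Label V) (i : V) : List ℕ → V
  | [] => i
  | a :: u => (ω u).2 a (pos ω i u)

/-- The trace of the branching random walk started at `i`: the graph formed by all edges traversed
by some particle. -/
def trace (ω : List ℕ → Label V) (i : V) : SimpleGraph V :=
  SimpleGraph.fromRel fun x y => ∃ (u : List ℕ) (a : ℕ),
    alive ω (a :: u) ∧ pos ω i u = x ∧ pos ω i (a :: u) = y

/-- The number of ends of a graph: the supremum over finite vertex sets `K` of the number of
infinite connected components of the graph with `K` removed. -/
noncomputable def numEnds (H : SimpleGraph V) : ℕ∞ :=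
  ⨆ K : Finset V, {C : (H.induce ((K : Set V)ᶜ)).ConnectedComponent | C.supp.Infinite}.encard

end BRW

end Pool.Agent.Lib.MP_b68431_pr
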