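import Mathlib
import Pool.Agent.Lib.MP_b68431_pr.Defs

set_option autoImplicit false

open MeasureTheory ProbabilityTheory Filter
open scoped ENNReal

namespace Pool.Agent.Lib.MP_b68431_pr

variable {V : Type}

/-- the data of the subtree of the particle `u` -/
def sh (u : List ℕ) (ω : List ℕ → Label V) : List ℕ → Label V := fun w => ω (w ++ u)

lemma alive_append (ω : List ℕ → Label V) (u w : List ℕ) :
    alive ω (w ++ u) ↔ alive ω u ∧ alive (sh u ω) w := by
  induction w with
  | nil => simp [alive]
  | cons a w ih =>
    simp only [List.cons_append, alive, ih, sh]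
    tauto

lemma pos_append (ω : List ℕ → Label V) (i : V) (u w : List ℕ) :
    pos ω i (w ++ u) = pos (sh u ω) (pos ω i u) w := by
  induction w with
  | nil => simp [pos]
  | cons a w ih =>
    simp only [List.cons_append, pos, ih, sh]

lemma finite_alive (ω : List ℕ → Label V) (n : ℕ) :
    {u : List ℕ | u.length = n ∧ alive ω u}.Finite := by
  induction n with
  | zero =>
    apply (Set.finite_singleton ([] : List ℕ)).subset
    rintro u ⟨hu, _⟩
    simpa using hu
  | succ n ih =>
    have : {u : List ℕ | u.length = n + 1 ∧ alive ω u} ⊆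
        ⋃ u ∈ {u : List ℕ | u.length = n ∧ alive ω u}, (fun a => a :: u) '' (Set.Iio (ω u).1) := by
      rintro u ⟨hu, hal⟩
      cases u with
      | nil => simp at hu
      | cons a u =>
        simp only [Set.mem_iUnion, Set.mem_image, exists_prop]
        refine ⟨u, ⟨by simpa using hu, hal.1⟩, a, hal.2, rfl⟩
    exact (Set.Finite.biUnion ih (fun u _ => (Set.finite_Iio _).image _)).subset this

lemma finite_alive_lt (ω : List ℕ → Label V) (n : ℕ) :
    {u : List ℕ | u.length < n ∧ alive ω u}.Finite := by
  have : {u : List ℕ | u.length < n ∧ alive ω u} ⊆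
      ⋃ m ∈ Set.Iio n, {u : List ℕ | u.length = m ∧ alive ω u} := by
    rintro u ⟨hu, hal⟩
    simp only [Set.mem_iUnion, exists_prop]
    exact ⟨u.length, hu, rfl, hal⟩
  exact (Set.Finite.biUnion (Set.finite_Iio n) (fun m _ => finite_alive ω m)).subset this

/-- The deterministic criterion for one-endedness of the trace. -/
theorem numEnds_trace_eq_one (ω : List ℕ → Label V) (i : V)
    (G1 : ∀ u, 0 < (ω u).1)
    (G2 : ∀ x, {u | alive ω u ∧ pos ω i u = x}.Finite)
    (G3 : ∀ u v : List ℕ, u.length = v.length → alive ω u → alive ω v →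
      ∃ w w', alive (sh u ω) w ∧ alive (sh v ω) w' ∧
        pos (sh u ω) (pos ω i u) w = pos (sh v ω) (pos ω i v) w') :
    numEnds (trace ω i) = 1 := by
  set T := trace ω i with hT
  have key : ∀ K : Finset V,
      {C : (T.induce ((K : Set V)ᶜ)).ConnectedComponent | C.supp.Infinite}.encard = 1 := by
    intro K
    -- particles of generation at least `n₀` avoid `K`
    obtain ⟨n₀, hn₀⟩ : ∃ n₀ : ℕ, ∀ u, alive ω u → n₀ ≤ u.length → pos ω i u ∉ (K : Set V) := by
      have hfin : (⋃ x ∈ (K : Set V), {u | alive ω u ∧ pos ω i u = x}).Finite :=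
        Set.Finite.biUnion K.finite_toSet (fun x _ => G2 x)
      obtain ⟨m, hm⟩ := (hfin.image List.length).bddAbove
      refine ⟨m + 1, fun u hu hlen hK => ?_⟩
      have : u.length ≤ m := hm ⟨u, by
        simp only [Set.mem_iUnion, exists_prop]
        exact ⟨pos ω i u, hK, hu, rfl⟩, rfl⟩
      omega
    set H := T.induce ((K : Set V)ᶜ) with hH
    -- step
    have hstep : ∀ (u : List ℕ) (a : ℕ) (hu : alive ω (a :: u)) (h1 : pos ω i u ∉ (K : Set V))
        (h2 : pos ω i (a :: u) ∉ (K : Set V)),
        H.Reachable ⟨pos ω i u, h1⟩ ⟨pos ω i (a :: u), h2⟩ := by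
      intro u a hu h1 h2
      by_cases he : pos ω i u = pos ω i (a :: u)
      · have : (⟨pos ω i u, h1⟩ : ((K : Set V)ᶜ : Set V)) = ⟨pos ω i (a :: u), h2⟩ := Subtype.ext he
        rw [this]
      · apply SimpleGraph.Adj.reachable
        rw [hH, SimpleGraph.comap_adj]
        simp only [Function.Embedding.subtype_apply]
        rw [hT, trace, SimpleGraph.fromRel_adj]
        exact ⟨he, Or.inl ⟨u, a, hu, rfl, rfl⟩⟩
    -- descendants
    have hdesc : ∀ (u w : List ℕ) (hu : alive ω (w ++ u)) (hlen : n₀ ≤ u.length),
        H.Reachable ⟨pos ω i u, hn₀ u ((alive_append ω u w).mp hu).1 hlen⟩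
          ⟨pos ω i (w ++ u), hn₀ _ hu (by rw [List.length_append]; omega)⟩ := by
      intro u w
      induction w with
      | nil => intro hu hlen; exact SimpleGraph.Reachable.refl _
      | cons a w ih =>
        intro hu hlen
        have hu' : alive ω (w ++ u) := hu.1
        refine (ih hu' hlen).trans ?_
        exact hstep (w ++ u) a hu _ _
    -- two particles of generation `n₀`
    have hpair : ∀ (u v : List ℕ) (hu : alive ω u) (hv : alive ω v) (h1 : u.length = n₀)
        (h2 : v.length = n₀),
        H.Reachable ⟨pos ω i u, hn₀ u hu h1.ge⟩ ⟨pos ω i v, hn₀ v hv h2.ge⟩ := by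
      intro u v hu hv h1 h2
      obtain ⟨w, w', hw, hw', he⟩ := G3 u v (h1.trans h2.symm) hu hv
      have e1 := hdesc u w ((alive_append ω u w).mpr ⟨hu, hw⟩) h1.ge
      have e2 := hdesc v w' ((alive_append ω v w').mpr ⟨hv, hw'⟩) h2.ge
      have e3 : (⟨pos ω i (w ++ u), hn₀ _ ((alive_append ω u w).mpr ⟨hu, hw⟩)
          (by rw [List.length_append]; omega)⟩ : ((K : Set V)ᶜ : Set V)) =
          ⟨pos ω i (w' ++ v), hn₀ _ ((alive_append ω v w').mpr ⟨hv, hw'⟩)
          (by rw [List.length_append]; omega)⟩ := by
        apply Subtype.ext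
        simp only
        rw [pos_append, pos_append, he]
      rw [e3] at e1
      exact e1.trans e2.symm
    -- the line of first children
    have hline : ∀ n : ℕ, alive ω (List.replicate n 0) := by
      intro n
      induction n with
      | zero => exact trivial
      | succ n ih =>
        rw [List.replicate_succ]
        exact ⟨ih, G1 _⟩
    set base : List ℕ := List.replicate n₀ 0 with hbase
    have hbl : base.length = n₀ := by simp [hbase]
    set C₀ := H.connectedComponentMk ⟨pos ω i base, hn₀ base (hline n₀) hbl.ge⟩ with hC₀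
    have hmem : ∀ (u : List ℕ) (hu : alive ω u) (h1 : n₀ ≤ u.length),
        H.connectedComponentMk ⟨pos ω i u, hn₀ u hu h1⟩ = C₀ := by
      intro u hu h1
      set u₀ := u.drop (u.length - n₀) with hu₀
      set w := u.take (u.length - n₀) with hw
      have huw : w ++ u₀ = u := List.take_append_drop _ _
      have hl : u₀.length = n₀ := by rw [hu₀, List.length_drop]; omega
      have hal : alive ω (w ++ u₀) := by rw [huw]; exact hu
      have hal₀ := ((alive_append ω u₀ w).mp hal).1
      have e1 := hdesc u₀ w hal hl.ge
      have e2 := hpair u₀ base hal₀ (hline n₀) hl hbl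
      rw [hC₀, SimpleGraph.ConnectedComponent.eq]
      refine SimpleGraph.Reachable.trans ?_ e2
      refine SimpleGraph.Reachable.trans ?_ e1.symm
      have e3 : (⟨pos ω i u, hn₀ u hu h1⟩ : ((K : Set V)ᶜ : Set V)) =
          ⟨pos ω i (w ++ u₀), hn₀ _ hal (by rw [List.length_append]; omega)⟩ := by
        apply Subtype.ext; simp only; rw [huw]
      rw [e3]
    -- `C₀` is infinite
    have hinf : C₀.supp.Infinite := by
      intro hfin
      have hfin2 : (⋃ x ∈ C₀.supp, {u | alive ω u ∧ pos ω i u = (x : V)}).Finite :=
        Set.Finite.biUnion hfin (fun x _ => G2 x)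
      obtain ⟨m, hm⟩ := (hfin2.image List.length).bddAbove
      have hu := hline (n₀ + m + 1)
      have hlen : (List.replicate (n₀ + m + 1) (0 : ℕ)).length = n₀ + m + 1 := by simp
      have h3 := hm ⟨List.replicate (n₀ + m + 1) 0, by
        simp only [Set.mem_iUnion, exists_prop]
        refine ⟨⟨pos ω i (List.replicate (n₀ + m + 1) 0), hn₀ _ hu (by omega)⟩, ?_, hu, rfl⟩
        exact hmem _ hu (by omega), rfl⟩
      omega
    have hset : {C : H.ConnectedComponent | C.supp.Infinite} = {C₀} := by
      ext C
      simp only [Set.mem_ofPred_eq, Set.mem_singleton_iff]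
      constructor
      · intro hC
        by_contra hne
        -- all vertices of `C` are visited only before generation `n₀`
        have hsub : ∀ y ∈ C.supp, ∃ u, u.length < n₀ ∧ alive ω u ∧ pos ω i u = (y : V) := by
          intro y hy
          obtain ⟨z, hz, hzy⟩ := hC.exists_notMem_finite (Set.finite_singleton y)
          have hyz : H.Reachable y z := by
            rw [← SimpleGraph.ConnectedComponent.eq]
            rw [SimpleGraph.ConnectedComponent.mem_supp_iff] at hy hz
            rw [hy, hz]
          obtain ⟨p⟩ := hyz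
          have hex : ∃ u, alive ω u ∧ pos ω i u = (y : V) := by
            cases p with
            | nil => simp at hzy
            | cons h _ =>
              rw [hH, SimpleGraph.comap_adj] at h
              simp only [Function.Embedding.subtype_apply] at h
              rw [hT, trace, SimpleGraph.fromRel_adj] at h
              rcases h.2 with ⟨u, a, hal, h1, h2⟩ | ⟨u, a, hal, h1, h2⟩
              · exact ⟨u, hal.1, h1⟩
              · exact ⟨a :: u, hal, h2⟩
          obtain ⟨u, hu, hpu⟩ := hex
          refine ⟨u, ?_, hu, hpu⟩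
          by_contra hcon
          push Not at hcon
          apply hne
          rw [SimpleGraph.ConnectedComponent.mem_supp_iff] at hy
          rw [← hy, ← hmem u hu hcon]
          congr 1
          exact Subtype.ext hpu.symm
        apply hC
        have hfin := (finite_alive_lt ω n₀).image (pos ω i)
        have : C.supp ⊆ Subtype.val ⁻¹' (pos ω i '' {u | u.length < n₀ ∧ alive ω u}) := by
          intro y hy
          obtain ⟨u, h1, h2, h3⟩ := hsub y hy
          exact ⟨u, ⟨h1, h2⟩, h3⟩
        exact (hfin.preimage Subtype.val_injective.injOn).subset this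
      · rintro rfl
        exact hinf
    rw [hset, Set.encard_singleton]
  unfold numEnds
  simp only [key]
  exact ciSup_const

end Pool.Agent.Lib.MP_b68431_pr
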