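import Mathlib
import Pool.Agent.Lib.MP_b68431_pr.Topology

set_option autoImplicit false

open MeasureTheory ProbabilityTheory Filter
open scoped ENNReal

namespace Pool.Agent.Lib.MP_b68431_pr

/-! ### Independence in product spaces -/

lemma indepFun_of_disjoint_range {ι α β X : Type} [MeasurableSpace X] (ν : Measure X)
    [IsProbabilityMeasure ν] (f : α → ι) (g : β → ι)
    (h : Disjoint (Set.range f) (Set.range g)) :
    IndepFun (fun (ω : ι → X) a => ω (f a)) (fun (ω : ι → X) b => ω (g b))
      (Measure.infinitePi fun _ : ι => ν) := by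
  have h0 : iIndepFun (fun (i : ι) (ω : ι → X) => ω i) (Measure.infinitePi fun _ : ι => ν) :=
    iIndepFun_infinitePi (Ω := fun _ : ι => X) (X := fun _ x => x) (fun _ => measurable_id)
  rw [iIndepFun_iff_iIndep] at h0
  have h1 := indep_iSup_of_disjoint (fun i => (measurable_pi_apply i).comap_le) h0 h
  rw [IndepFun_iff_Indep]
  have hf : ∀ {γ : Type} (k : γ → ι),
      MeasurableSpace.comap (fun (ω : ι → X) a => ω (k a)) MeasurableSpace.pi ≤
        ⨆ i ∈ Set.range k, MeasurableSpace.comap (fun (ω : ι → X) => ω i) inferInstance := by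
    intro γ k
    rw [MeasurableSpace.pi, MeasurableSpace.comap_iSup]
    apply iSup_le
    intro a
    rw [MeasurableSpace.comap_comp]
    exact le_iSup₂_of_le (k a) ⟨a, rfl⟩ le_rfl
  exact indep_of_indep_of_le_left (indep_of_indep_of_le_right h1 (hf g)) (hf f)

lemma measurable_comp_countable {Ω V W : Type} [MeasurableSpace Ω] [Countable V]
    [MeasurableSpace V] [MeasurableSingletonClass V] [MeasurableSpace W] {F : V → Ω → W}
    (hF : ∀ x, Measurable (F x)) {X : Ω → V} (hX : Measurable X) :
    Measurable (fun ω => F (X ω) ω) :=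
  (measurable_from_prod_countable_right (f := fun p : V × Ω => F p.1 p.2) hF).comp
    (hX.prodMk measurable_id)

section
variable {V : Type} [MeasurableSpace V]

abbrev Om (V : Type) := List ℕ → Label V

instance (P : V → PMF V) (μ : PMF ℕ) : IsProbabilityMeasure (labelLaw P μ) := by
  unfold labelLaw; infer_instance

instance (P : V → PMF V) (μ : PMF ℕ) : IsProbabilityMeasure (brwLaw P μ) := by
  unfold brwLaw; infer_instance

lemma measurable_sh (u : List ℕ) : Measurable (sh u : Om V → Om V) := by
  unfold sh
  exact measurable_pi_lambda _ (fun w => measurable_pi_apply _)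

lemma append_injective (u : List ℕ) : Function.Injective (fun w : List ℕ => w ++ u) :=
  fun _ _ h => List.append_cancel_right h

lemma map_sh (P : V → PMF V) (μ : PMF ℕ) (u : List ℕ) :
    (brwLaw P μ).map (sh u) = brwLaw P μ := by
  unfold brwLaw
  exact Measure.map_infinitePi_infinitePi_of_inj (P := fun _ : List ℕ => labelLaw P μ)
    (append_injective u)

lemma disjoint_append {u v : List ℕ} (hne : u ≠ v) (hl : u.length = v.length) :
    Disjoint (Set.range fun w : List ℕ => w ++ u) (Set.range fun w : List ℕ => w ++ v) := by
  rw [Set.disjoint_left]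
  rintro _ ⟨w, rfl⟩ ⟨w', hw'⟩
  apply hne
  simp only at hw'
  exact ((List.append_inj' hw' hl.symm).2).symm

lemma indep_sh_sh (P : V → PMF V) (μ : PMF ℕ) {u v : List ℕ} (hne : u ≠ v)
    (hl : u.length = v.length) : IndepFun (sh u) (sh v) (brwLaw P μ) := by
  unfold brwLaw
  exact indepFun_of_disjoint_range (labelLaw P μ) _ _ (disjoint_append hne hl)

lemma map_sh_sh (P : V → PMF V) (μ : PMF ℕ) {u v : List ℕ} (hne : u ≠ v)
    (hl : u.length = v.length) :
    (brwLaw P μ).map (fun ω => (sh u ω, sh v ω)) = (brwLaw P μ).prod (brwLaw P μ) := by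
  rw [(indep_sh_sh P μ hne hl).map_prod_eq_prod_map_map (measurable_sh u).aemeasurable
    (measurable_sh v).aemeasurable, map_sh, map_sh]

/-- keep only the data of the particles of generation less than `n` -/
def fr (n : ℕ) (ω : Om V) : Om V := fun w => if w.length < n then ω w else (0, fun _ x => x)

lemma measurable_fr (n : ℕ) : Measurable (fr n : Om V → Om V) := by
  apply measurable_pi_lambda
  intro w
  unfold fr
  by_cases h : w.length < n
  · simp only [h, if_true]; exact measurable_pi_apply w
  · simp only [h, if_false]; exact measurable_const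

lemma alive_fr (n : ℕ) (ω : Om V) (u : List ℕ) (hu : u.length ≤ n) :
    alive (fr n ω) u ↔ alive ω u := by
  induction u with
  | nil => simp [alive]
  | cons a u ih =>
    simp only [List.length_cons] at hu
    simp only [alive]
    rw [ih (by omega)]
    unfold fr
    rw [if_pos (by omega)]

lemma pos_fr (n : ℕ) (ω : Om V) (i : V) (u : List ℕ) (hu : u.length ≤ n) :
    pos (fr n ω) i u = pos ω i u := by
  induction u with
  | nil => simp [pos]
  | cons a u ih =>
    simp only [List.length_cons] at hu
    simp only [pos]
    rw [ih (by omega)]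
    unfold fr
    rw [if_pos (by omega)]

/-- `fr n` is independent of anything built from particles of generation at least `n` -/
lemma indep_fr {β : Type} (P : V → PMF V) (μ : PMF ℕ) (n : ℕ) (g : β → List ℕ)
    (hg : ∀ b, n ≤ (g b).length) :
    IndepFun (fr n) (fun (ω : Om V) b => ω (g b)) (brwLaw P μ) := by
  have h1 := indepFun_of_disjoint_range (labelLaw P μ)
    (fun w : {w : List ℕ // w.length < n} => w.1) g (by
      rw [Set.disjoint_left]
      rintro _ ⟨w, rfl⟩ ⟨b, hb⟩
      have h1 := hg b
      have h2 := w.2
      simp only at hb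
      rw [hb] at h1
      omega)
  have h2 : (fr n : Om V → Om V) =
      (fun (η : {w : List ℕ // w.length < n} → Label V) (w : List ℕ) =>
        if h : w.length < n then η ⟨w, h⟩ else (0, fun _ x => x)) ∘
      (fun (ω : Om V) (w : {w : List ℕ // w.length < n}) => ω w.1) := by
    funext ω w
    simp only [Function.comp, fr]
    split_ifs <;> rfl
  rw [h2]
  refine h1.comp (φ := fun (η : {w : List ℕ // w.length < n} → Label V) (w : List ℕ) =>
        if h : w.length < n then η ⟨w, h⟩ else (0, fun _ x => x)) ?_ measurable_id
  apply measurable_pi_lambda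
  intro w
  by_cases h : w.length < n
  · simp only [h, dite_true]; exact measurable_pi_apply _
  · simp only [h, dite_false]; exact measurable_const

lemma indep_fr_sh_sh (P : V → PMF V) (μ : PMF ℕ) {n : ℕ} {u v : List ℕ}
    (hu : u.length = n) (hv : v.length = n) :
    IndepFun (fr n) (fun ω : Om V => (sh u ω, sh v ω)) (brwLaw P μ) := by
  have h1 := indep_fr P μ n (Sum.elim (fun w : List ℕ => w ++ u) (fun w : List ℕ => w ++ v)) (by
    rintro (b | b) <;> simp [hu, hv])
  refine h1.comp (ψ := fun η : List ℕ ⊕ List ℕ → Label V =>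
    ((fun w => η (Sum.inl w)), (fun w => η (Sum.inr w)))) measurable_id ?_
  exact (measurable_pi_lambda _ (fun w => measurable_pi_apply _)).prodMk
    (measurable_pi_lambda _ (fun w => measurable_pi_apply _))

lemma indep_fr_label (P : V → PMF V) (μ : PMF ℕ) (u : List ℕ) :
    IndepFun (fr u.length) (fun ω : Om V => ω u) (brwLaw P μ) := by
  have h1 := indep_fr P μ u.length (fun _ : Unit => u) (by simp)
  exact h1.comp (ψ := fun η : Unit → Label V => η ()) measurable_id (measurable_pi_apply _)

lemma map_label (P : V → PMF V) (μ : PMF ℕ) (u : List ℕ) :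
    (brwLaw P μ).map (fun ω : Om V => ω u) = labelLaw P μ := by
  unfold brwLaw
  exact Measure.infinitePi_map_eval _ u

/-- root decomposition -/
lemma map_root (P : V → PMF V) (μ : PMF ℕ) :
    (brwLaw P μ).map (fun ω : Om V => (ω [], (sh [0] ω, sh [1] ω))) =
      (labelLaw P μ).prod ((brwLaw P μ).prod (brwLaw P μ)) := by
  have h1 := indepFun_of_disjoint_range (labelLaw P μ) (fun _ : Unit => ([] : List ℕ))
    (Sum.elim (fun w : List ℕ => w ++ [0]) (fun w : List ℕ => w ++ [1])) (by
      rw [Set.disjoint_left]
      rintro _ ⟨_, rfl⟩ ⟨b, hb⟩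
      rcases b with b | b <;> simp at hb)
  have h2 : IndepFun (fun ω : Om V => ω []) (fun ω : Om V => (sh [0] ω, sh [1] ω)) (brwLaw P μ) := by
    refine h1.comp (φ := fun η : Unit → Label V => η ()) (ψ := fun η : List ℕ ⊕ List ℕ → Label V =>
      ((fun w => η (Sum.inl w)), (fun w => η (Sum.inr w)))) (measurable_pi_apply _) ?_
    exact (measurable_pi_lambda _ (fun w => measurable_pi_apply _)).prodMk
      (measurable_pi_lambda _ (fun w => measurable_pi_apply _))
  rw [h2.map_prod_eq_prod_map_map (measurable_pi_apply _).aemeasurable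
    ((measurable_sh [0]).prodMk (measurable_sh [1])).aemeasurable, map_label,
    map_sh_sh P μ (by simp) (by simp)]

lemma measurable_alive (u : List ℕ) : MeasurableSet {ω : Om V | alive ω u} := by
  induction u with
  | nil => simp [alive]
  | cons a u ih =>
    have : {ω : Om V | alive ω (a :: u)} = {ω | alive ω u} ∩ {ω : Om V | a < (ω u).1} := by
      ext ω; simp [alive]
    rw [this]
    apply ih.inter
    have h1 : Measurable (fun ω : Om V => (ω u).1) := measurable_fst.comp (measurable_pi_apply u)
    exact h1 (measurableSet_Ioi (a := a))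

variable [Countable V] [MeasurableSingletonClass V]

lemma measurable_pos (i : V) (u : List ℕ) : Measurable (fun ω : Om V => pos ω i u) := by
  induction u with
  | nil => simp only [pos]; exact measurable_const
  | cons a u ih =>
    simp only [pos]
    exact measurable_comp_countable (F := fun x (ω : Om V) => (ω u).2 a x)
      (fun x => (measurable_pi_apply x).comp ((measurable_pi_apply a).comp
        (measurable_snd.comp (measurable_pi_apply u)))) ih

end

end Pool.Agent.Lib.MP_b68431_pr
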