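import Mathlib
import Pool.Agent.Lib.MP_b68431_pr.Tree

set_option autoImplicit false

open MeasureTheory ProbabilityTheory Filter
open scoped ENNReal

namespace Pool.Agent.Lib.MP_b68431_pr

lemma tsum_list (f : List ℕ → ℝ≥0∞) : ∑' u, f u = f [] + ∑' a, ∑' u, f (a :: u) := by
  let e : Option (ℕ × List ℕ) ≃ List ℕ :=
    { toFun := fun o => match o with
        | none => []
        | some (a, u) => a :: u
      invFun := fun l => match l with
        | [] => none
        | a :: u => some (a, u)
      left_inv := by rintro (_ | ⟨a, u⟩) <;> rfl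
      right_inv := by rintro (_ | ⟨a, u⟩) <;> rfl }
  rw [← e.tsum_eq]
  rw [ENNReal.tsum_eq_add_tsum_ite none]
  congr 1
  rw [← ENNReal.tsum_prod (f := fun a u => f (a :: u))]
  have hinj : Function.Injective (some : ℕ × List ℕ → Option (ℕ × List ℕ)) := Option.some_injective _
  rw [← hinj.tsum_eq]
  · apply tsum_congr
    rintro ⟨a, u⟩
    simp only [reduceCtorEq, if_false]
    rfl
  · intro o ho
    rcases o with _ | p
    · simp at ho
    · exact ⟨p, rfl⟩

lemma tsum_gt_eq_mean (μ : PMF ℕ) : ∑' a : ℕ, μ.toMeasure {k | a < k} = mean μ := by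
  have h1 : ∀ a : ℕ, μ.toMeasure {k | a < k} = ∑' k, if a < k then μ k else 0 := by
    intro a
    rw [PMF.toMeasure_apply _ (DiscreteMeasurableSpace.forall_measurableSet _)]
    apply tsum_congr
    intro k
    simp [Set.indicator]
  simp only [h1]
  rw [ENNReal.tsum_comm]
  unfold mean
  apply tsum_congr
  intro k
  rw [tsum_eq_sum (s := Finset.range k)]
  · rw [Finset.sum_congr rfl (g := fun _ => μ k)]
    · rw [Finset.sum_const, Finset.card_range, nsmul_eq_mul, mul_comm]
    · intro a ha
      rw [Finset.mem_range] at ha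
      rw [if_pos ha]
  · intro a ha
    rw [Finset.mem_range] at ha
    rw [if_neg ha]

section
variable {V : Type} [MeasurableSpace V] [Countable V] [MeasurableSingletonClass V]

lemma map_step (P : V → PMF V) (a : ℕ) (x : V) :
    (Measure.infinitePi fun _ : ℕ => Measure.infinitePi fun x : V => (P x).toMeasure).map
      (fun Y : ℕ → V → V => Y a x) = (P x).toMeasure := by
  have : (fun Y : ℕ → V → V => Y a x) = (fun Z : V → V => Z x) ∘ (fun Y : ℕ → V → V => Y a) := rfl
  rw [this, ← Measure.map_map (measurable_pi_apply x) (measurable_pi_apply a),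
    Measure.infinitePi_map_eval, Measure.infinitePi_map_eval]

lemma label_event (P : V → PMF V) (μ : PMF ℕ) (a : ℕ) (x y : V) :
    labelLaw P μ {e | a < e.1 ∧ e.2 a x = y} = μ.toMeasure {k | a < k} * P x y := by
  have h1 : {e : Label V | a < e.1 ∧ e.2 a x = y} =
      {k : ℕ | a < k} ×ˢ {Y : ℕ → V → V | Y a x = y} := by
    ext e; simp
  have h2 : Measurable (fun Y : ℕ → V → V => Y a x) :=
    (measurable_pi_apply x).comp (measurable_pi_apply a)
  rw [h1, labelLaw, Measure.prod_prod]
  congr 1
  rw [← PMF.toMeasure_apply_singleton (P x) y (measurableSet_singleton y), ← map_step P a x,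
    Measure.map_apply h2 (measurableSet_singleton y)]
  rfl

lemma prob_step (P : V → PMF V) (μ : PMF ℕ) (i : V) (a : ℕ) (u : List ℕ) (y : V) :
    brwLaw P μ {ω | alive ω (a :: u) ∧ pos ω i (a :: u) = y} =
      ∑' x, brwLaw P μ {ω | alive ω u ∧ pos ω i u = x} * (μ.toMeasure {k | a < k} * P x y) := by
  have h1 : {ω : Om V | alive ω (a :: u) ∧ pos ω i (a :: u) = y} =
      ⋃ x : V, ({ω : Om V | alive ω u ∧ pos ω i u = x} ∩
        (fun ω : Om V => ω u) ⁻¹' {e | a < e.1 ∧ e.2 a x = y}) := by
    ext ω
    simp only [alive, pos, Set.mem_ofPred_eq, Set.mem_iUnion, Set.mem_inter_iff, Set.mem_preimage]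
    constructor
    · rintro ⟨⟨h1, h2⟩, h3⟩
      exact ⟨pos ω i u, ⟨h1, rfl⟩, h2, h3⟩
    · rintro ⟨x, ⟨h1, rfl⟩, h2, h3⟩
      exact ⟨⟨h1, h2⟩, h3⟩
  have hm1 : ∀ x : V, MeasurableSet {ω : Om V | alive ω u ∧ pos ω i u = x} := by
    intro x
    exact (measurable_alive u).inter (measurable_pos i u (measurableSet_singleton x))
  have hm2 : ∀ x : V, MeasurableSet {e : Label V | a < e.1 ∧ e.2 a x = y} := by
    intro x
    apply MeasurableSet.inter
    · exact measurable_fst (measurableSet_Ioi (a := a))
    · have h5 : Measurable (fun e : Label V => e.2 a x) :=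
        (measurable_pi_apply x).comp ((measurable_pi_apply a).comp measurable_snd)
      exact h5 (measurableSet_singleton y)
  rw [h1, measure_iUnion]
  · apply tsum_congr
    intro x
    have h2 := (indep_fr_label P μ u).measure_inter_preimage_eq_mul
      {ω : Om V | alive ω u ∧ pos ω i u = x} {e | a < e.1 ∧ e.2 a x = y} (hm1 x) (hm2 x)
    have h3 : fr u.length ⁻¹' {ω : Om V | alive ω u ∧ pos ω i u = x} =
        {ω : Om V | alive ω u ∧ pos ω i u = x} := by
      ext ω
      simp only [Set.mem_preimage, Set.mem_ofPred_eq]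
      rw [alive_fr _ _ _ le_rfl, pos_fr _ _ _ _ le_rfl]
    rw [h3] at h2
    rw [h2]
    congr 1
    rw [← label_event P μ a x y, ← map_label P μ u, Measure.map_apply (measurable_pi_apply u) (hm2 x)]
  · intro x x' hxx'
    rw [Function.onFun, Set.disjoint_left]
    rintro ω ⟨⟨_, h1⟩, _⟩ ⟨⟨_, h2⟩, _⟩
    exact hxx' (h1.symm.trans h2)
  · intro x
    exact (hm1 x).inter (measurable_pi_apply u (hm2 x))

/-- many-to-one -/
lemma expected_visits (P : V → PMF V) (μ : PMF ℕ) (i : V) (n : ℕ) (y : V) :
    ∑' u : List ℕ, (if u.length = n then brwLaw P μ {ω | alive ω u ∧ pos ω i u = y} else 0) =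
      mean μ ^ n * walk P i n y := by
  induction n generalizing y with
  | zero =>
    rw [tsum_list]
    simp only [List.length_nil, if_true, List.length_cons, Nat.add_eq_zero_iff, one_ne_zero,
      and_false, if_false, tsum_zero, add_zero, alive, pos, true_and, pow_zero, one_mul, walk,
      PMF.pure_apply]
    by_cases h : i = y
    · simp [h]
    · simp [h, Ne.symm h]
  | succ n ih =>
    rw [tsum_list]
    simp only [List.length_nil, List.length_cons, Nat.add_right_cancel_iff]
    rw [if_neg (by omega), zero_add]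
    have h1 : ∀ a : ℕ, ∀ u : List ℕ,
        (if u.length = n then brwLaw P μ {ω | alive ω (a :: u) ∧ pos ω i (a :: u) = y} else 0) =
        ∑' x, (if u.length = n then brwLaw P μ {ω | alive ω u ∧ pos ω i u = x} else 0) *
          (μ.toMeasure {k | a < k} * P x y) := by
      intro a u
      by_cases h : u.length = n
      · simp only [h, if_true]
        exact prob_step P μ i a u y
      · simp [h]
    simp only [h1]
    have h2 : ∀ a : ℕ, ∑' u : List ℕ, ∑' x, (if u.length = n then brwLaw P μ {ω | alive ω u ∧ pos ω i u = x} else 0) *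
          (μ.toMeasure {k | a < k} * P x y) =
          μ.toMeasure {k | a < k} * ∑' x, (mean μ ^ n * walk P i n x) * P x y := by
      intro a
      rw [ENNReal.tsum_comm, ← ENNReal.tsum_mul_left]
      apply tsum_congr
      intro x
      rw [ENNReal.tsum_mul_right, ih x]
      ring
    simp only [h2]
    rw [ENNReal.tsum_mul_right, tsum_gt_eq_mean, walk, PMF.bind_apply, pow_succ,
      ← ENNReal.tsum_mul_left, ← ENNReal.tsum_mul_left]
    apply tsum_congr
    intro x
    ring

lemma expected_total (P : V → PMF V) (μ : PMF ℕ) (i y : V) :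
    ∑' u : List ℕ, brwLaw P μ {ω | alive ω u ∧ pos ω i u = y} =
      ∑' n : ℕ, mean μ ^ n * walk P i n y := by
  simp only [← expected_visits]
  rw [ENNReal.tsum_comm]
  apply tsum_congr
  intro u
  rw [tsum_eq_single u.length]
  · simp
  · intro n hn
    rw [if_neg (Ne.symm hn)]

lemma ae_finite_visits (P : V → PMF V) (μ : PMF ℕ) (i y : V)
    (h : ∑' n : ℕ, mean μ ^ n * walk P i n y ≠ ∞) :
    ∀ᵐ ω ∂(brwLaw P μ), {u | alive ω u ∧ pos ω i u = y}.Finite := by
  rw [← expected_total] at h
  exact ae_finite_setOfPred_mem h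

end

end Pool.Agent.Lib.MP_b68431_pr
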