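import Mathlib
import Pool.Agent.Lib.MP_b68431_pr.Transience

set_option autoImplicit false

open MeasureTheory ProbabilityTheory Filter
open scoped ENNReal

namespace Pool.Agent.Lib.MP_b68431_pr

/-! ### Generalities on walks -/

section
variable {V : Type} (P : V → PMF V)

lemma walk_zero (i : V) : walk P i 0 = PMF.pure i := rfl

lemma walk_succ (i : V) (n : ℕ) : walk P i (n + 1) = (walk P i n).bind P := rfl

lemma walk_succ' (i : V) (n : ℕ) : walk P i (n + 1) = (P i).bind (fun j => walk P j n) := by
  induction n with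
  | zero => simp [walk]
  | succ n ih =>
    rw [walk_succ, ih, PMF.bind_bind]
    rfl

lemma walk_add (i : V) (m n : ℕ) : walk P i (m + n) = (walk P i m).bind (fun j => walk P j n) := by
  induction n with
  | zero => simp [walk]
  | succ n ih =>
    rw [← add_assoc, walk_succ, ih, PMF.bind_bind]
    rfl

lemma le_walk_add (i j k : V) (m n : ℕ) :
    walk P i m j * walk P j n k ≤ walk P i (m + n) k := by
  rw [walk_add, PMF.bind_apply]
  exact ENNReal.le_tsum (f := fun a => walk P i m a * walk P a n k) j

end

/-! ### The level chain -/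

lemma four_add_one : (4 / 5 : ℝ≥0∞) + 1 / 5 = 1 := by
  rw [ENNReal.div_add_div_same, show (4 : ℝ≥0∞) + 1 = 5 by norm_num]
  exact ENNReal.div_self (by norm_num) (by norm_num)

/-- a coin which shows `true` with probability `4/5` -/
noncomputable def coin : PMF Bool :=
  PMF.ofFintype (fun b => if b then 4 / 5 else 1 / 5) (by
    rw [Fintype.sum_bool]; simpa only [if_true, Bool.false_eq_true, if_false] using four_add_one)

/-- the level chain -/
noncomputable def R : ℕ → PMF ℕ
  | 0 => PMF.pure 1
  | k + 1 => coin.map (fun b => if b then k + 2 else k)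

lemma R_zero (l : ℕ) : R 0 l = if l = 1 then 1 else 0 := by
  simp [R, PMF.pure_apply]

lemma R_succ (k l : ℕ) : R (k + 1) l = (if l = k + 2 then 4 / 5 else 0) + (if l = k then 1 / 5 else 0) := by
  simp [R, PMF.map_apply, coin]

/-- sums against the level chain -/
lemma tsum_R_zero (f : ℕ → ℝ≥0∞) : ∑' m, R 0 m * f m = f 1 := by
  rw [tsum_eq_single 1]
  · simp [R_zero]
  · intro m hm; simp [R_zero, hm]

lemma tsum_R_succ (k : ℕ) (f : ℕ → ℝ≥0∞) :
    ∑' m, R (k + 1) m * f m = 4 / 5 * f (k + 2) + 1 / 5 * f k := by
  simp only [R_succ, add_mul, ite_mul, zero_mul]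
  rw [ENNReal.tsum_add, tsum_ite_eq, tsum_ite_eq]

/-- real transition probabilities of the level chain -/
noncomputable def r : ℕ → ℕ → ℕ → ℝ
  | 0, k, l => if k = l then 1 else 0
  | n + 1, 0, l => r n 1 l
  | n + 1, k + 1, l => 4 / 5 * r n (k + 2) l + 1 / 5 * r n k l

lemma r_nonneg (n k l : ℕ) : 0 ≤ r n k l := by
  induction n generalizing k with
  | zero => unfold r; split_ifs <;> norm_num
  | succ n ih =>
    cases k with
    | zero => unfold r; exact ih 1
    | succ k =>
      unfold r
      have := ih (k + 2)
      have := ih k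
      positivity

lemma ofReal_45 : ENNReal.ofReal (4 / 5) = 4 / 5 := by
  rw [ENNReal.ofReal_div_of_pos (by norm_num)]; norm_num

lemma ofReal_15 : ENNReal.ofReal (1 / 5) = 1 / 5 := by
  rw [ENNReal.ofReal_div_of_pos (by norm_num)]; norm_num

lemma walk_R (n k l : ℕ) : walk R k n l = ENNReal.ofReal (r n k l) := by
  induction n generalizing k with
  | zero =>
    rw [walk_zero, PMF.pure_apply]
    unfold r
    by_cases h : k = l
    · simp [h]
    · simp [h, Ne.symm h]
  | succ n ih =>
    rw [walk_succ', PMF.bind_apply]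
    simp only [ih]
    cases k with
    | zero =>
      rw [tsum_R_zero (fun m => ENNReal.ofReal (r n m l))]
      simp only [r]
    | succ k =>
      rw [tsum_R_succ k (fun m => ENNReal.ofReal (r n m l))]
      have h1 := r_nonneg n (k + 2) l
      have h2 := r_nonneg n k l
      simp only [r]
      rw [ENNReal.ofReal_add (by positivity) (by positivity), ENNReal.ofReal_mul (by norm_num),
        ENNReal.ofReal_mul (by norm_num), ofReal_45, ofReal_15]

lemma r_le_one (n k l : ℕ) : r n k l ≤ 1 := by
  have h1 := (walk R k n).coe_le_one l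
  rw [walk_R] at h1
  rwa [ENNReal.ofReal_le_one] at h1

lemma r_add (m n k j l : ℕ) : r m k j * r n j l ≤ r (m + n) k l := by
  have h1 := le_walk_add R k j l m n
  rw [walk_R, walk_R, walk_R, ← ENNReal.ofReal_mul (r_nonneg _ _ _)] at h1
  exact (ENNReal.ofReal_le_ofReal_iff (r_nonneg _ _ _)).mp h1

lemma r_up (n k : ℕ) : 0 < r n k (k + n) := by
  induction n generalizing k with
  | zero => unfold r; simp
  | succ n ih =>
    cases k with
    | zero =>
      have := ih 1
      rw [show 0 + (n + 1) = 1 + n by omega]
      simpa only [r] using this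
    | succ k =>
      have h1 := ih (k + 2)
      have h2 := r_nonneg n k (k + 1 + (n + 1))
      simp only [r]
      rw [show k + 1 + (n + 1) = k + 2 + n by omega] at h2 ⊢
      positivity

lemma r_down (n k : ℕ) : 0 < r n (k + n) k := by
  induction n with
  | zero => unfold r; simp
  | succ n ih =>
    rw [← add_assoc]
    simp only [r]
    have h2 := r_nonneg n (k + n + 2) k
    positivity

lemma r_pos (k l : ℕ) : 0 < r (l + 1 + (k + 1)) k l := by
  have h1 := r_up (l + 1) k
  have h2 := r_down (k + 1) l
  have h3 := r_add (l + 1) (k + 1) k (k + (l + 1)) l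
  rw [show k + (l + 1) = l + (k + 1) by omega] at h1 h3
  exact lt_of_lt_of_le (mul_pos h1 h2) h3

/-- the bound giving `ρ ≤ 4/5` -/
lemma r_upper (n k l : ℕ) : (5 / 4 : ℝ) ^ n * r n k l ≤ (1 / 2) ^ k * 2 ^ l := by
  induction n generalizing k with
  | zero =>
    unfold r
    split_ifs with h
    · subst h
      rw [← mul_pow]; norm_num
    · simp
  | succ n ih =>
    have h2l : (0 : ℝ) < 2 ^ l := by positivity
    cases k with
    | zero =>
      have h1 := ih 1
      simp only [r, pow_succ]
      have : (0 : ℝ) < (1 / 2) ^ 0 := by norm_num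
      nlinarith
    | succ k =>
      have h1 := ih (k + 2)
      have h2 := ih k
      simp only [r, pow_succ] at h1 h2 ⊢
      nlinarith

/-- bound on the Green function at the critical value -/
lemma r_green (N k l : ℕ) : ∑ n ∈ Finset.range N, (5 / 4 : ℝ) ^ n * r n k l ≤
    2 * 2 ^ l * (1 / 2) ^ k * ((min k l : ℕ) + 2) := by
  induction N generalizing k with
  | zero => simp; positivity
  | succ N ih =>
    rw [Finset.sum_range_succ']
    have h2l : (0 : ℝ) < 2 ^ l := by positivity
    have h1l : (1 : ℝ) ≤ 2 ^ l := one_le_pow₀ (by norm_num)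
    cases k with
    | zero =>
      have h1 := ih 1
      have h2 : ∑ n ∈ Finset.range N, (5 / 4 : ℝ) ^ (n + 1) * r (n + 1) 0 l =
          5 / 4 * ∑ n ∈ Finset.range N, (5 / 4 : ℝ) ^ n * r n 1 l := by
        rw [Finset.mul_sum]
        apply Finset.sum_congr rfl
        intro n _
        simp only [r]
        ring
      rw [h2]
      have h3 : r 0 0 l ≤ 1 := r_le_one 0 0 l
      rcases Nat.eq_zero_or_pos l with rfl | hl
      · simp at h1 ⊢
        linarith
      · have h4 : r 0 0 l = 0 := by unfold r; rw [if_neg (by omega)]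
        rw [h4]
        rw [min_eq_left (by omega)] at h1 ⊢
        push_cast at h1 ⊢
        nlinarith
    | succ k =>
      have h1 := ih (k + 2)
      have h2 := ih k
      have h3 : ∑ n ∈ Finset.range N, (5 / 4 : ℝ) ^ (n + 1) * r (n + 1) (k + 1) l =
          ∑ n ∈ Finset.range N, (5 / 4 : ℝ) ^ n * r n (k + 2) l +
          1 / 4 * ∑ n ∈ Finset.range N, (5 / 4 : ℝ) ^ n * r n k l := by
        rw [Finset.mul_sum, ← Finset.sum_add_distrib]
        apply Finset.sum_congr rfl
        intro n _
        simp only [r]
        ring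
      rw [h3]
      simp only [pow_zero, one_mul]
      set D : ℝ := (1 / 2) ^ k with hD
      have hD0 : 0 < D := by positivity
      have e1 : (1 / 2 : ℝ) ^ (k + 1) = D / 2 := by rw [pow_succ]; ring
      have e2 : (1 / 2 : ℝ) ^ (k + 2) = D / 4 := by rw [pow_succ, pow_succ]; ring
      rw [e1]
      rw [e2] at h1
      rcases lt_trichotomy (k + 1) l with hl | hl | hl
      · have h4 : r 0 (k + 1) l = 0 := by unfold r; rw [if_neg (by omega)]
        rw [h4, min_eq_left (by omega)]
        rw [min_eq_left (by omega)] at h1 h2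
        push_cast at h1 h2 ⊢
        have : (0 : ℝ) < 2 ^ l * D := by positivity
        linarith
      · have h4 : r 0 (k + 1) l = 1 := by unfold r; rw [if_pos hl]
        rw [h4, min_eq_left (by omega)]
        rw [min_eq_left (by omega)] at h2
        rw [min_eq_right (by omega)] at h1
        have h5 : (2 : ℝ) ^ l * D = 2 := by
          rw [← hl, hD, pow_succ]
          have : (2 : ℝ) ^ k * (1 / 2) ^ k = 1 := by rw [← mul_pow]; norm_num
          linear_combination 2 * this
        have h6 : (l : ℝ) = k + 1 := by rw [← hl]; push_cast; ring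
        rw [h6] at h1
        push_cast at h1 h2 ⊢
        have e3 : 2 * 2 ^ l * (D / 4) * ((k : ℝ) + 1 + 2) = (k : ℝ) + 3 := by
          linear_combination ((k : ℝ) + 3) / 2 * h5
        have e4 : 2 * 2 ^ l * D * ((k : ℝ) + 2) = 4 * ((k : ℝ) + 2) := by
          linear_combination 2 * ((k : ℝ) + 2) * h5
        have e5 : 2 * 2 ^ l * (D / 2) * ((k : ℝ) + 1 + 2) = 2 * ((k : ℝ) + 3) := by
          linear_combination ((k : ℝ) + 3) * h5
        rw [e3] at h1
        rw [e4] at h2
        rw [e5]
        linarith
      · have h4 : r 0 (k + 1) l = 0 := by unfold r; rw [if_neg (by omega)]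
        rw [h4, min_eq_right (by omega)]
        rw [min_eq_right (by omega)] at h1 h2
        linarith

/-- no subexponential improvement: `ρ ≥ 4/5` -/
lemma not_summable (z : ℝ) (hz : 5 / 4 < z) (k l : ℕ) : ¬ Summable (fun n => z ^ n * r n k l) := by
  intro hs
  have hz0 : 0 < z := by linarith
  -- all starting points
  have hall : ∀ j, Summable (fun n => z ^ n * r n j l) := by
    intro j
    obtain ⟨a, hp⟩ : ∃ a, 0 < r a k j := ⟨_, r_pos k j⟩
    have h1 : Summable (fun n => z ^ (n + a) * r (n + a) k l) := (summable_nat_add_iff a).mpr hs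
    have h2 : Summable (fun n => (z ^ a * r a k j) * (z ^ n * r n j l)) := by
      refine Summable.of_nonneg_of_le (fun n => ?_) (fun n => ?_) h1
      · have := r_nonneg n j l
        positivity
      · have h3 := r_add a n k j l
        rw [add_comm a n] at h3
        calc (z ^ a * r a k j) * (z ^ n * r n j l) = z ^ (n + a) * (r a k j * r n j l) := by
              rw [pow_add]; ring
          _ ≤ z ^ (n + a) * r (n + a) k l := mul_le_mul_of_nonneg_left h3 (by positivity)
    exact (summable_mul_left_iff (by positivity)).mp h2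
  set u : ℕ → ℝ := fun j => ∑' n, z ^ n * r n j l with hu
  have hupos : ∀ j, 0 < u j := by
    intro j
    apply (hall j).tsum_pos (fun n => by have := r_nonneg n j l; positivity) (l + 1 + (j + 1))
    have := r_pos j l
    positivity
  have hrec : ∀ j, z * (4 / 5 * u (j + 2) + 1 / 5 * u j) ≤ u (j + 1) := by
    intro j
    have h1 : u (j + 1) = z ^ 0 * r 0 (j + 1) l + ∑' n, z ^ (n + 1) * r (n + 1) (j + 1) l := by
      rw [hu]
      simp only
      rw [(hall (j + 1)).tsum_eq_zero_add]
    have h2 : ∑' n, z ^ (n + 1) * r (n + 1) (j + 1) l = z * (4 / 5 * u (j + 2) + 1 / 5 * u j) := by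
      rw [hu]
      simp only
      rw [← tsum_mul_left, ← tsum_mul_left, ← ((hall (j + 2)).mul_left _).tsum_add ((hall j).mul_left _),
        ← tsum_mul_left]
      apply tsum_congr
      intro n
      simp only [r]
      ring
    rw [h1, h2]
    have := r_nonneg 0 (j + 1) l
    simp only [pow_zero, one_mul]
    linarith
  set t : ℕ → ℝ := fun j => u (j + 1) / u j with ht
  have htpos : ∀ j, 0 < t j := fun j => div_pos (hupos _) (hupos _)
  have hdec : ∀ j, t (j + 1) ≤ t j - (1 - 5 / (4 * z)) := by
    intro j
    have h1 := hrec j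
    have h2 : z * (4 / 5 * t (j + 1) + 1 / 5 * (1 / t j)) ≤ 1 := by
      have h3 : z * (4 / 5 * t (j + 1) + 1 / 5 * (1 / t j)) =
          z * (4 / 5 * u (j + 2) + 1 / 5 * u j) / u (j + 1) := by
        rw [ht]
        simp only
        have := (hupos j).ne'
        have := (hupos (j + 1)).ne'
        field_simp
      rw [h3]
      exact (div_le_one (hupos _)).mpr h1
    have h4 : 1 ≤ t j + 1 / (4 * t j) := by
      have h5 := htpos j
      have h6 : t j + 1 / (4 * t j) - 1 = (2 * t j - 1) ^ 2 / (4 * t j) := by
        field_simp; ring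
      have h7 : 0 ≤ (2 * t j - 1) ^ 2 / (4 * t j) := by positivity
      linarith
    have h8 : 4 / 5 * t (j + 1) + 1 / 5 * (1 / t j) ≤ 1 / z := by
      rw [le_div_iff₀ hz0]; linarith
    have h9 : 5 / (4 * z) = 5 / 4 * (1 / z) := by field_simp
    have h10 : 1 / (4 * t j) = 1 / 4 * (1 / t j) := by
      have := (htpos j).ne'
      field_simp
    rw [h9]
    rw [h10] at h4
    linarith
  have hlin : ∀ j : ℕ, t j ≤ t 0 - j * (1 - 5 / (4 * z)) := by
    intro j
    induction j with
    | zero => simp
    | succ j ih =>
      have := hdec j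
      push_cast
      linarith
  have heps : 0 < 1 - 5 / (4 * z) := by
    rw [sub_pos, div_lt_one (by positivity)]; linarith
  obtain ⟨j, hj⟩ := exists_nat_gt (t 0 / (1 - 5 / (4 * z)))
  rw [div_lt_iff₀ heps] at hj
  have := hlin j
  have := htpos j
  linarith

end Pool.Agent.Lib.MP_b68431_pr
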