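import Mathlib
import Pool.Agent.Lib.MP_b68431_pr.Chain

set_option autoImplicit false

open MeasureTheory ProbabilityTheory Filter
open scoped ENNReal

namespace Pool.Agent.Lib.MP_b68431_pr

/-! ### The graph: level `k` has `4^k` vertices -/

structure Vx where
  /-- the level of the vertex -/
  lev : ℕ
  /-- its number inside the level -/
  idx : Fin (4 ^ lev)

instance : Countable Vx := by
  have h : Function.Injective (fun v : Vx => (⟨v.lev, v.idx⟩ : Σ k : ℕ, Fin (4 ^ k))) := by
    rintro ⟨k, x⟩ ⟨l, y⟩ h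
    simp only [Sigma.mk.injEq] at h
    obtain ⟨rfl, h⟩ := h
    rw [eq_of_heq h]
  exact h.countable
instance : MeasurableSpace Vx := ⊤
instance : DiscreteMeasurableSpace Vx := ⟨fun _ => trivial⟩
instance (k : ℕ) : Nonempty (Fin (4 ^ k)) := ⟨⟨0, by positivity⟩⟩
noncomputable instance : DecidableEq Vx := Classical.decEq _

instance : Infinite Vx := by
  apply Infinite.of_injective (fun k : ℕ => Vx.mk k ⟨0, by positivity⟩)
  intro k l h
  exact congrArg Vx.lev h

/-- consecutive levels are completely joined -/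
def G : SimpleGraph Vx where
  Adj v w := v.lev + 1 = w.lev ∨ w.lev + 1 = v.lev
  symm := ⟨by rintro v w (h | h) <;> simp [h]⟩
  loopless := ⟨by rintro v (h | h) <;> omega⟩

/-- uniform law on level `l` -/
noncomputable def U (l : ℕ) : PMF Vx := (PMF.uniformOfFintype (Fin (4 ^ l))).map (Vx.mk l)

lemma U_apply (l : ℕ) (w : Vx) : U l w = if w.lev = l then ((4 : ℝ≥0∞) ^ l)⁻¹ else 0 := by
  obtain ⟨k, x⟩ := w
  rw [U, PMF.map_apply]
  simp only
  by_cases h : k = l
  · subst h
    rw [if_pos rfl, tsum_eq_single x]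
    · rw [if_pos rfl, PMF.uniformOfFintype_apply, Fintype.card_fin]
      push_cast
      rfl
    · intro y hy
      rw [if_neg]
      intro he
      apply hy
      simp only [Vx.mk.injEq, heq_eq_eq, true_and] at he
      exact he.symm
  · rw [if_neg h]
    simp only [ENNReal.tsum_eq_zero]
    intro y
    rw [if_neg]
    intro he
    exact h (congrArg Vx.lev he)

/-- the transition kernel -/
noncomputable def K (v : Vx) : PMF Vx := (R (v.lev)).bind U

lemma bind_U (q : PMF ℕ) (w : Vx) : (q.bind U) w = q (w.lev) * ((4 : ℝ≥0∞) ^ (w.lev))⁻¹ := by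
  rw [PMF.bind_apply, tsum_eq_single (w.lev)]
  · rw [U_apply, if_pos rfl]
  · intro l hl
    rw [U_apply, if_neg (Ne.symm hl), mul_zero]

lemma U_map (l : ℕ) : (U l).map Vx.lev = PMF.pure l := by
  rw [U, PMF.map_comp]
  have : Vx.lev ∘ Vx.mk l = Function.const _ l := rfl
  rw [this, PMF.map_const]

lemma K_map (v : Vx) : (K v).map Vx.lev = R (v.lev) := by
  rw [K, PMF.map_bind]
  simp only [U_map]
  exact PMF.bind_pure _

lemma walk_K_map (v : Vx) (n : ℕ) : (walk K v n).map Vx.lev = walk R (v.lev) n := by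
  induction n with
  | zero => rw [walk_zero, walk_zero, PMF.pure_map]
  | succ n ih =>
    rw [walk_succ, walk_succ, PMF.map_bind, ← ih, PMF.bind_map]
    congr 1
    funext w
    exact K_map w

lemma walk_K_succ (v : Vx) (n : ℕ) : walk K v (n + 1) = (walk R (v.lev) (n + 1)).bind U := by
  rw [walk_succ, walk_succ, ← walk_K_map, PMF.bind_map, PMF.bind_bind]
  rfl

lemma walk_K_apply (v w : Vx) (n : ℕ) :
    walk K v (n + 1) w = ENNReal.ofReal (r (n + 1) (v.lev) (w.lev)) * ((4 : ℝ≥0∞) ^ (w.lev))⁻¹ := by
  rw [walk_K_succ, bind_U, walk_R]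

lemma K_ne_zero_iff (v w : Vx) : K v w ≠ 0 ↔ G.Adj v w := by
  rw [K, bind_U]
  have h4 : ((4 : ℝ≥0∞) ^ (w.lev))⁻¹ ≠ 0 := by simp
  rw [mul_ne_zero_iff_right h4]
  simp only [G]
  rcases hk : v.lev with _ | k
  · rw [R_zero]
    constructor
    · intro h
      have : w.lev = 1 := by by_contra hc; simp [hc] at h
      omega
    · intro h
      have : w.lev = 1 := by omega
      simp [this]
  · rw [R_succ]
    constructor
    · intro h
      by_contra hc
      push Not at hc
      rw [if_neg (by omega), if_neg (by omega)] at h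
      simp at h
    · intro h
      rcases h with h | h
      · rw [if_pos (by omega)]
        simp
      · have : w.lev = k := by omega
        rw [if_neg (by omega), if_pos this]
        simp

lemma K_irred : Irred K := by
  intro v w
  refine ⟨w.lev + (v.lev + 1) + 1, ?_⟩
  rw [walk_K_apply]
  have h1 := r_pos (v.lev) (w.lev)
  rw [show w.lev + 1 + (v.lev + 1) = w.lev + (v.lev + 1) + 1 by omega] at h1
  have h4 : ((4 : ℝ≥0∞) ^ (w.lev))⁻¹ ≠ 0 := by simp
  rw [mul_ne_zero_iff_right h4]
  simpa using h1

lemma reachable_of_walk {V : Type} (P : V → PMF V) (H : SimpleGraph V)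
    (h : ∀ v w, P v w ≠ 0 → H.Adj v w) (v w : V) (n : ℕ) (hn : walk P v n w ≠ 0) :
    H.Reachable v w := by
  induction n generalizing w with
  | zero =>
    rw [walk_zero, PMF.pure_apply] at hn
    have : w = v := by by_contra hc; simp [hc] at hn
    rw [this]
  | succ n ih =>
    rw [walk_succ, PMF.bind_apply] at hn
    simp only [ne_eq, ENNReal.tsum_eq_zero, not_forall, mul_eq_zero, not_or] at hn
    obtain ⟨x, h1, h2⟩ := hn
    exact (ih x h1).trans (h x w h2).reachable

lemma G_connected : G.Connected := by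
  have : Nonempty Vx := ⟨⟨0, ⟨0, by norm_num⟩⟩⟩
  constructor
  intro v w
  obtain ⟨n, hn⟩ := K_irred v w
  exact reachable_of_walk K G (fun v w h => (K_ne_zero_iff v w).mp h) v w n hn

lemma G_locallyFinite (v : Vx) : (G.neighborSet v).Finite := by
  have : G.neighborSet v ⊆ ⋃ k ∈ Set.Iio (v.lev + 2), Set.range (Vx.mk k) := by
    rintro ⟨k, x⟩ hw
    rw [SimpleGraph.mem_neighborSet] at hw
    simp only [G] at hw
    rw [Set.mem_iUnion₂]
    exact ⟨k, by rw [Set.mem_Iio]; omega, x, rfl⟩
  exact (Set.Finite.biUnion (Set.finite_Iio _) (fun k _ => Set.finite_range _)).subset this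

/-- reversing weights of the level chain -/
noncomputable def wt (k : ℕ) : ℝ := if k = 0 then 4 / 5 else 4 ^ k

/-- reversibility -/
lemma r_succ_last (n k l : ℕ) : r (n + 1) k (l + 1) =
    (if l = 0 then 1 else 4 / 5) * r n k l + 1 / 5 * r n k (l + 2) := by
  induction n generalizing k with
  | zero =>
    cases k with
    | zero =>
      simp only [r]
      rcases Nat.eq_zero_or_pos l with rfl | hl
      · norm_num
      · rw [if_neg (by omega), if_neg (by omega), if_neg (by omega), if_neg (by omega)]; norm_num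
    | succ k =>
      simp only [r]
      split_ifs <;> first | (exfalso; omega) | norm_num
  | succ n ih =>
    cases k with
    | zero =>
      simp only [r] at ih ⊢
      exact ih 1
    | succ k =>
      have h1 := ih (k + 2)
      have h2 := ih k
      rw [show r (n + 1 + 1) (k + 1) (l + 1) = 4 / 5 * r (n + 1) (k + 2) (l + 1) +
        1 / 5 * r (n + 1) k (l + 1) from rfl, h1, h2]
      rw [show r (n + 1) (k + 1) l = 4 / 5 * r n (k + 2) l + 1 / 5 * r n k l from rfl,
        show r (n + 1) (k + 1) (l + 2) = 4 / 5 * r n (k + 2) (l + 2) + 1 / 5 * r n k (l + 2) from rfl]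
      ring

lemma r_succ_last_zero (n k : ℕ) : r (n + 1) k 0 = 1 / 5 * r n k 1 := by
  induction n generalizing k with
  | zero =>
    cases k with
    | zero => simp only [r]; norm_num
    | succ k =>
      simp only [r]
      by_cases h : k = 0
      · subst h; norm_num
      · rw [if_neg (by omega), if_neg h, if_neg (by omega)]
        norm_num
  | succ n ih =>
    cases k with
    | zero =>
      simp only [r] at ih ⊢
      exact ih 1
    | succ k =>
      have h1 := ih (k + 2)
      have h2 := ih k
      rw [show r (n + 1 + 1) (k + 1) 0 = 4 / 5 * r (n + 1) (k + 2) 0 +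
        1 / 5 * r (n + 1) k 0 from rfl, h1, h2]
      rw [show r (n + 1) (k + 1) 1 = 4 / 5 * r n (k + 2) 1 + 1 / 5 * r n k 1 from rfl]
      ring

lemma r_rev (n k l : ℕ) : wt k * r n k l = wt l * r n l k := by
  induction n generalizing k l with
  | zero =>
    unfold r
    by_cases h : k = l
    · subst h; rfl
    · rw [if_neg h, if_neg (Ne.symm h)]; simp
  | succ n ih =>
    cases l with
    | zero =>
      rw [r_succ_last_zero]
      have h1 := ih k 1
      simp only [r]
      have h2 : wt 1 = 4 := by unfold wt; norm_num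
      have h3 : wt 0 = 4 / 5 := by unfold wt; norm_num
      rw [h2] at h1
      rw [h3]
      linarith
    | succ l =>
      rw [r_succ_last]
      have h1 := ih k l
      have h2 := ih k (l + 2)
      simp only [r]
      have h3 : wt (l + 2) = 4 * wt (l + 1) := by
        unfold wt; rw [if_neg (by omega), if_neg (by omega), pow_succ]; ring
      have h4 : (if l = 0 then (1 : ℝ) else 4 / 5) * wt l = wt (l + 1) * (1 / 5) := by
        unfold wt
        by_cases h : l = 0
        · subst h; norm_num
        · rw [if_neg h, if_neg h, if_neg (by omega), pow_succ]; ring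
      rw [h3] at h2
      linear_combination (if l = 0 then (1 : ℝ) else 4 / 5) * h1 + (1 / 5) * h2 + r n l k * h4

lemma K_quasiSymmetric : QuasiSymmetric K := by
  refine ⟨ENNReal.ofReal (5 / 4), ENNReal.ofReal_ne_top, ?_⟩
  intro v w n
  cases n with
  | zero =>
    rw [walk_zero, walk_zero, PMF.pure_apply, PMF.pure_apply]
    by_cases h : w = v
    · rw [if_pos h, if_pos h.symm, mul_one, ENNReal.one_le_ofReal]; norm_num
    · rw [if_neg h]; exact zero_le
  | succ n =>
    rw [walk_K_apply, walk_K_apply]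
    have h1 := r_rev (n + 1) (v.lev) (w.lev)
    have e : ∀ l : ℕ, ((4 : ℝ≥0∞) ^ l)⁻¹ = ENNReal.ofReal (((4 : ℝ) ^ l)⁻¹) := by
      intro l
      rw [ENNReal.ofReal_inv_of_pos (by positivity), ENNReal.ofReal_pow (by norm_num)]
      norm_num
    rw [e, e, ← ENNReal.ofReal_mul (r_nonneg _ _ _), ← ENNReal.ofReal_mul (r_nonneg _ _ _),
      ← ENNReal.ofReal_mul (by norm_num)]
    apply ENNReal.ofReal_le_ofReal
    have hwt : ∀ k : ℕ, wt k ≤ 4 ^ k ∧ (4 : ℝ) ^ k ≤ 5 / 4 * wt k := by
      intro k
      unfold wt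
      by_cases h : k = 0
      · subst h; norm_num
      · rw [if_neg h]
        have : (0 : ℝ) < 4 ^ k := by positivity
        constructor <;> linarith
    set a := r (n + 1) (v.lev) (w.lev)
    set b := r (n + 1) (w.lev) (v.lev)
    have ha : 0 ≤ a := r_nonneg _ _ _
    have hb : 0 ≤ b := r_nonneg _ _ _
    obtain ⟨h2, h3⟩ := hwt (v.lev)
    obtain ⟨h4, h5⟩ := hwt (w.lev)
    have h6 : (0 : ℝ) < 4 ^ (v.lev) := by positivity
    have h7 : (0 : ℝ) < 4 ^ (w.lev) := by positivity
    rw [← div_eq_mul_inv, ← div_eq_mul_inv, ← mul_div_assoc, div_le_div_iff₀ h7 h6]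
    nlinarith [mul_le_mul_of_nonneg_left h3 ha, mul_le_mul_of_nonneg_left h4 hb]

end Pool.Agent.Lib.MP_b68431_pr
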