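import Mathlib
import Pool.Agent.Lib.MP_b68431_pr.Graph

set_option autoImplicit false

open MeasureTheory ProbabilityTheory Filter Topology
open scoped ENNReal

namespace Pool.Agent.Lib.MP_b68431_pr

lemma inv_four_pow (l : ℕ) : ((4 : ℝ≥0∞) ^ l)⁻¹ = ENNReal.ofReal (((4 : ℝ) ^ l)⁻¹) := by
  rw [ENNReal.ofReal_inv_of_pos (by positivity), ENNReal.ofReal_pow (by norm_num)]
  norm_num

lemma walk_K_root (v w : Vx) (n : ℕ) (hn : n ≠ 0) :
    (walk K v n w) ^ (1 / (n : ℝ)) =
      ENNReal.ofReal ((r n v.lev w.lev * ((4 : ℝ) ^ w.lev)⁻¹) ^ ((n : ℝ)⁻¹)) := by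
  obtain ⟨m, rfl⟩ := Nat.exists_eq_succ_of_ne_zero hn
  rw [Nat.succ_eq_add_one, walk_K_apply, inv_four_pow, ← ENNReal.ofReal_mul (r_nonneg _ _ _), one_div]
  have h := r_nonneg (m + 1) v.lev w.lev
  rw [ENNReal.ofReal_rpow_of_nonneg (by positivity) (by positivity)]

lemma spectral_le (v w : Vx) : spectralRadius K v w ≤ 4 / 5 := by
  rw [← ofReal_45]
  apply le_of_forall_gt_imp_ge_of_dense
  intro c hc
  -- it is enough to bound eventually by `c`
  rcases eq_or_ne c ∞ with rfl | hctop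
  · exact le_top
  set c' := c.toReal with hc'
  have hc'0 : 4 / 5 < c' := by
    rw [hc', ← ENNReal.ofReal_lt_iff_lt_toReal (by norm_num) hctop]
    exact hc
  have hcc : c = ENNReal.ofReal c' := (ENNReal.ofReal_toReal hctop).symm
  unfold spectralRadius
  apply limsup_le_of_le
  · exact isCobounded_le_of_bot
  set C : ℝ := (1 / 2) ^ v.lev * 2 ^ w.lev with hC
  have hC0 : 0 < C := by positivity
  -- eventually C * (4/5)^n ≤ c'^n
  have h1 : Tendsto (fun n : ℕ => C * (4 / 5 / c') ^ n) atTop (𝓝 (C * 0)) := by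
    apply Tendsto.const_mul
    apply tendsto_pow_atTop_nhds_zero_of_lt_one
    · positivity
    · rw [div_lt_one (by linarith)]; exact hc'0
  rw [mul_zero] at h1
  have h2 := h1.eventually (gt_mem_nhds (show (0 : ℝ) < 1 by norm_num))
  filter_upwards [h2, eventually_ne_atTop 0] with n hn hn0
  rw [walk_K_root v w n hn0, hcc]
  apply ENNReal.ofReal_le_ofReal
  have hr := r_nonneg n v.lev w.lev
  have hup := r_upper n v.lev w.lev
  have h4 : (0 : ℝ) < ((4 : ℝ) ^ w.lev)⁻¹ := by positivity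
  have h4' : ((4 : ℝ) ^ w.lev)⁻¹ ≤ 1 := inv_le_one_of_one_le₀ (one_le_pow₀ (by norm_num))
  have hs : r n v.lev w.lev * ((4 : ℝ) ^ w.lev)⁻¹ ≤ c' ^ n := by
    have h5 : r n v.lev w.lev ≤ C * (4 / 5) ^ n := by
      have h6 : (5 / 4 : ℝ) ^ n * (4 / 5) ^ n = 1 := by rw [← mul_pow]; norm_num
      have h7 : (0 : ℝ) < (4 / 5) ^ n := by positivity
      calc r n v.lev w.lev = ((5 / 4 : ℝ) ^ n * r n v.lev w.lev) * (4 / 5) ^ n := by
            linear_combination -(r n v.lev w.lev) * h6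
        _ ≤ C * (4 / 5) ^ n := mul_le_mul_of_nonneg_right hup h7.le
    have h8 : C * (4 / 5) ^ n ≤ c' ^ n := by
      rw [div_pow, ← mul_div_assoc, div_lt_one (by positivity)] at hn
      exact hn.le
    calc r n v.lev w.lev * ((4 : ℝ) ^ w.lev)⁻¹ ≤ r n v.lev w.lev * 1 :=
          mul_le_mul_of_nonneg_left h4' hr
      _ ≤ c' ^ n := by linarith
  calc (r n v.lev w.lev * ((4 : ℝ) ^ w.lev)⁻¹) ^ ((n : ℝ)⁻¹) ≤ (c' ^ n) ^ ((n : ℝ)⁻¹) :=
        Real.rpow_le_rpow (by positivity) hs (by positivity)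
    _ = c' := Real.pow_rpow_inv_natCast (by linarith) hn0

lemma le_spectral (v w : Vx) : 4 / 5 ≤ spectralRadius K v w := by
  by_contra hcon
  push Not at hcon
  obtain ⟨c, hc1, hc2⟩ := exists_between hcon
  have hctop : c ≠ ∞ := ne_top_of_lt hc2
  set c' := c.toReal with hc'
  have hcc : c = ENNReal.ofReal c' := (ENNReal.ofReal_toReal hctop).symm
  have hc'0 : 0 ≤ c' := ENNReal.toReal_nonneg
  have hc'1 : c' < 4 / 5 := by
    rw [← ofReal_45, hcc, ENNReal.ofReal_lt_ofReal_iff (by norm_num)] at hc2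
    exact hc2
  unfold spectralRadius at hc1
  have h1 := eventually_lt_of_limsup_lt hc1 (isBounded_le_of_top)
  -- pick z
  obtain ⟨c'', h2, h3⟩ := exists_between hc'1
  have h4 : 0 < c'' := by linarith
  have hz : 5 / 4 < 1 / c'' := by
    rw [lt_div_iff₀ h4]; linarith
  refine not_summable (1 / c'') hz v.lev w.lev ?_
  have hgeo : Summable (fun n : ℕ => (4 : ℝ) ^ w.lev * (c' / c'') ^ n) := by
    apply Summable.mul_left
    apply summable_geometric_of_lt_one (by positivity)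
    rw [div_lt_one h4]; exact h2
  apply Summable.of_norm_bounded_eventually_nat hgeo
  filter_upwards [h1, eventually_ne_atTop 0] with n hn hn0
  rw [walk_K_root v w n hn0, hcc] at hn
  have hr := r_nonneg n v.lev w.lev
  have hpos4 : (0 : ℝ) < 4 ^ w.lev := by positivity
  set s := r n v.lev w.lev * ((4 : ℝ) ^ w.lev)⁻¹ with hs
  have hs0 : 0 ≤ s := by positivity
  have h5 : s ^ ((n : ℝ)⁻¹) < c' := by
    have h6 : 0 ≤ s ^ ((n : ℝ)⁻¹) := by positivity
    exact (ENNReal.ofReal_lt_ofReal_iff_of_nonneg h6).mp hn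
  have h6 : s ≤ c' ^ n := by
    calc s = (s ^ ((n : ℝ)⁻¹)) ^ n := (Real.rpow_inv_natCast_pow hs0 hn0).symm
      _ ≤ c' ^ n := pow_le_pow_left₀ (by positivity) h5.le n
  have h7 : r n v.lev w.lev ≤ 4 ^ w.lev * c' ^ n := by
    have : r n v.lev w.lev = 4 ^ w.lev * s := by rw [hs]; field_simp
    rw [this]
    exact mul_le_mul_of_nonneg_left h6 hpos4.le
  rw [Real.norm_eq_abs, abs_of_nonneg (by positivity)]
  calc (1 / c'') ^ n * r n v.lev w.lev ≤ (1 / c'') ^ n * (4 ^ w.lev * c' ^ n) :=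
        mul_le_mul_of_nonneg_left h7 (by positivity)
    _ = 4 ^ w.lev * (c' / c'') ^ n := by rw [div_pow, div_pow, one_pow]; ring

lemma spectral_eq (v w : Vx) : spectralRadius K v w = 4 / 5 :=
  le_antisymm (spectral_le v w) (le_spectral v w)

/-! ### The offspring law -/

lemma quarter_add : (1 / 4 : ℝ≥0∞) + 3 / 4 = 1 := by
  rw [ENNReal.div_add_div_same, show (1 : ℝ≥0∞) + 3 = 4 by norm_num]
  exact ENNReal.div_self (by norm_num) (by norm_num)

/-- two children with probability `1/4`, one child with probability `3/4` -/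
noncomputable def mu : PMF ℕ :=
  (PMF.ofFintype (fun b : Bool => if b then 1 / 4 else 3 / 4) (by
    rw [Fintype.sum_bool]; simpa only [if_true, Bool.false_eq_true, if_false] using quarter_add)).map
    (fun b => if b then 2 else 1)

lemma mu_apply (k : ℕ) : mu k = (if k = 2 then 1 / 4 else 0) + (if k = 1 then 3 / 4 else 0) := by
  simp [mu, PMF.map_apply]

lemma mu_zero : mu 0 = 0 := by rw [mu_apply]; simp

lemma mean_mu : mean mu = 5 / 4 := by
  unfold mean
  simp only [mu_apply, add_mul, ite_mul, zero_mul]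
  rw [ENNReal.tsum_add, tsum_ite_eq, tsum_ite_eq]
  rw [show ((2 : ℕ) : ℝ≥0∞) = 2 by norm_num, show ((1 : ℕ) : ℝ≥0∞) = 1 by norm_num, mul_one,
    one_div, mul_comm, ← div_eq_mul_inv, ENNReal.div_add_div_same]
  norm_num

lemma mean_mu_inv : mean mu = (4 / 5 : ℝ≥0∞)⁻¹ := by
  rw [mean_mu, ENNReal.inv_div (by norm_num) (by norm_num)]

/-- transience -/
lemma green_ne_top (v w : Vx) : ∑' n : ℕ, mean mu ^ n * walk K v n w ≠ ∞ := by
  set B : ℝ := 1 + 2 * 2 ^ w.lev * (1 / 2) ^ v.lev * ((min v.lev w.lev : ℕ) + 2) with hB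
  suffices h : ∑' n : ℕ, mean mu ^ n * walk K v n w ≤ ENNReal.ofReal B from
    ne_top_of_le_ne_top ENNReal.ofReal_ne_top h
  apply ENNReal.tsum_le_of_sum_range_le
  intro N
  have h54 : (5 / 4 : ℝ≥0∞) = ENNReal.ofReal (5 / 4) := by
    rw [ENNReal.ofReal_div_of_pos (by norm_num)]; norm_num
  have hterm : ∀ n : ℕ, mean mu ^ n * walk K v n w ≤
      ENNReal.ofReal ((if n = 0 then 1 else 0) + (5 / 4) ^ n * r n v.lev w.lev) := by
    intro n
    have hr := r_nonneg n v.lev w.lev
    cases n with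
    | zero =>
      rw [pow_zero, one_mul]
      refine ((walk K v 0).coe_le_one w).trans ?_
      rw [ENNReal.one_le_ofReal]
      simp only [if_true, pow_zero, one_mul]
      linarith
    | succ n =>
      rw [if_neg (by omega), zero_add, walk_K_apply, mean_mu, h54, ← ENNReal.ofReal_pow (by norm_num),
        ENNReal.ofReal_mul (by positivity)]
      apply mul_le_mul_right
      calc ENNReal.ofReal (r (n + 1) v.lev w.lev) * ((4 : ℝ≥0∞) ^ w.lev)⁻¹
          ≤ ENNReal.ofReal (r (n + 1) v.lev w.lev) * 1 := by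
            apply mul_le_mul_right
            rw [ENNReal.inv_le_one]
            exact one_le_pow₀ (by norm_num)
        _ = ENNReal.ofReal (r (n + 1) v.lev w.lev) := mul_one _
  refine (Finset.sum_le_sum (fun n _ => hterm n)).trans ?_
  rw [← ENNReal.ofReal_sum_of_nonneg]
  · apply ENNReal.ofReal_le_ofReal
    rw [Finset.sum_add_distrib]
    have h1 := r_green N v.lev w.lev
    have h2 : ∑ n ∈ Finset.range N, (if n = 0 then (1 : ℝ) else 0) ≤ 1 := by
      rw [Finset.sum_ite_eq']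
      split_ifs <;> norm_num
    linarith
  · intro n _
    have := r_nonneg n v.lev w.lev
    split_ifs <;> positivity

end Pool.Agent.Lib.MP_b68431_pr
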