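import Mathlib
import Pool.Agent.Lib.MP_b68431_pr.Transience

set_option autoImplicit false

open MeasureTheory ProbabilityTheory Filter
open scoped ENNReal

namespace Pool.Agent.Lib.MP_b68431_pr

section
variable {V : Type} [MeasurableSpace V] [Countable V] [MeasurableSingletonClass V]

lemma lintegral_pmf (p : PMF V) (φ : V → ℝ≥0∞) : ∫⁻ w, φ w ∂p.toMeasure = ∑' w, p w * φ w := by
  rw [lintegral_countable']
  apply tsum_congr
  intro w
  rw [PMF.toMeasure_apply_singleton p w (measurableSet_singleton w), mul_comm]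

/-- integrating against the root data and the two first subtrees -/
lemma lintegral_root (P : V → PMF V) (μ : PMF ℕ) (v : V) (A : ℕ → ℝ≥0∞) (F H : V → Om V → ℝ≥0∞)
    (hF : ∀ w, Measurable (F w)) (hH : ∀ w, Measurable (H w)) :
    ∫⁻ ω : Om V, A (ω []).1 * (F ((ω []).2 0 v) (sh [0] ω) * H ((ω []).2 1 v) (sh [1] ω))
        ∂(brwLaw P μ) =
      (∑' k, μ k * A k) * ((∑' w, P v w * ∫⁻ ω, F w ω ∂(brwLaw P μ)) *
        (∑' w, P v w * ∫⁻ ω, H w ω ∂(brwLaw P μ))) := by
  have hm1 : ∀ a : ℕ, Measurable (fun e : Label V => e.2 a v) := fun a =>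
    (measurable_pi_apply v).comp ((measurable_pi_apply a).comp measurable_snd)
  set Φ : Label V × (Om V × Om V) → ℝ≥0∞ := fun p =>
    A p.1.1 * (F (p.1.2 0 v) p.2.1 * H (p.1.2 1 v) p.2.2) with hΦ
  have hA : Measurable A := Measurable.of_discrete
  have hΦm : Measurable Φ := by
    apply Measurable.mul
    · exact hA.comp (measurable_fst.comp measurable_fst)
    · apply Measurable.mul
      · exact measurable_comp_countable (F := fun x (p : Label V × (Om V × Om V)) => F x p.2.1)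
          (fun x => (hF x).comp (measurable_fst.comp measurable_snd))
          ((hm1 0).comp measurable_fst)
      · exact measurable_comp_countable (F := fun x (p : Label V × (Om V × Om V)) => H x p.2.2)
          (fun x => (hH x).comp (measurable_snd.comp measurable_snd))
          ((hm1 1).comp measurable_fst)
  have hmap : Measurable (fun ω : Om V => (ω [], (sh [0] ω, sh [1] ω))) :=
    (measurable_pi_apply _).prodMk ((measurable_sh [0]).prodMk (measurable_sh [1]))
  have h1 : ∫⁻ ω : Om V, Φ (ω [], (sh [0] ω, sh [1] ω)) ∂(brwLaw P μ) =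
      ∫⁻ p, Φ p ∂((labelLaw P μ).prod ((brwLaw P μ).prod (brwLaw P μ))) := by
    rw [← map_root, lintegral_map hΦm hmap]
  have h2 : ∫⁻ ω : Om V, A (ω []).1 * (F ((ω []).2 0 v) (sh [0] ω) * H ((ω []).2 1 v) (sh [1] ω))
        ∂(brwLaw P μ) = ∫⁻ ω : Om V, Φ (ω [], (sh [0] ω, sh [1] ω)) ∂(brwLaw P μ) := rfl
  rw [h2, h1, lintegral_prod _ hΦm.aemeasurable]
  set f : V → ℝ≥0∞ := fun w => ∫⁻ ω, F w ω ∂(brwLaw P μ) with hf
  set h : V → ℝ≥0∞ := fun w => ∫⁻ ω, H w ω ∂(brwLaw P μ) with hh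
  have hfm : Measurable f := Measurable.of_discrete
  have hhm : Measurable h := Measurable.of_discrete
  have h3 : ∀ e : Label V, ∫⁻ q, Φ (e, q) ∂((brwLaw P μ).prod (brwLaw P μ)) =
      A e.1 * (f (e.2 0 v) * h (e.2 1 v)) := by
    intro e
    simp only [hΦ]
    rw [lintegral_const_mul]
    · rw [lintegral_prod_mul (hF _).aemeasurable (hH _).aemeasurable]
    · exact ((hF _).comp measurable_fst).mul ((hH _).comp measurable_snd)
  simp only [h3]
  -- now the label law
  set Λ : Measure (ℕ → V → V) := Measure.infinitePi fun _ : ℕ => Measure.infinitePi fun x : V =>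
    (P x).toMeasure with hΛ
  have hg0 : Measurable (fun Y : ℕ → V → V => Y 0 v) :=
    (measurable_pi_apply v).comp (measurable_pi_apply 0)
  have hg1 : Measurable (fun Y : ℕ → V → V => Y 1 v) :=
    (measurable_pi_apply v).comp (measurable_pi_apply 1)
  have h4 : ∫⁻ e : Label V, A e.1 * (f (e.2 0 v) * h (e.2 1 v)) ∂(labelLaw P μ) =
      (∫⁻ k, A k ∂μ.toMeasure) * ∫⁻ Y : ℕ → V → V, f (Y 0 v) * h (Y 1 v) ∂Λ := by
    have key := lintegral_prod_mul (μ := μ.toMeasure) (ν := Λ) (f := A)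
      (g := fun Y : ℕ → V → V => f (Y 0 v) * h (Y 1 v)) hA.aemeasurable
      (((hfm.comp hg0).mul (hhm.comp hg1)).aemeasurable)
    exact key
  rw [h4]
  have h5 : ∫⁻ k, A k ∂μ.toMeasure = ∑' k, μ k * A k := lintegral_pmf μ A
  rw [h5]
  congr 1
  have h6 : Λ.map (fun Y : ℕ → V → V => (Y 0 v, Y 1 v)) = (P v).toMeasure.prod (P v).toMeasure := by
    have e1 : (fun Y : ℕ → V → V => (Y 0 v, Y 1 v)) =
        (fun q : (V → V) × (V → V) => (q.1 v, q.2 v)) ∘ (fun Y : ℕ → V → V => (Y 0, Y 1)) := rfl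
    rw [e1, ← Measure.map_map (by fun_prop) (by fun_prop), hΛ,
      Measure.infinitePi_map_eval_prod (by norm_num : (0 : ℕ) ≠ 1)]
    have e2 := Measure.map_prod_map (Measure.infinitePi fun x : V => (P x).toMeasure)
      (Measure.infinitePi fun x : V => (P x).toMeasure) (measurable_pi_apply v) (measurable_pi_apply v)
    rw [Measure.infinitePi_map_eval] at e2
    rw [e2]
    rfl
  have h7 : ∫⁻ Y : ℕ → V → V, f (Y 0 v) * h (Y 1 v) ∂Λ =
      ∫⁻ q : V × V, f q.1 * h q.2 ∂(Λ.map (fun Y : ℕ → V → V => (Y 0 v, Y 1 v))) := by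
    exact (lintegral_map (f := fun q : V × V => f q.1 * h q.2)
      ((hfm.comp measurable_fst).mul (hhm.comp measurable_snd)) (hg0.prodMk hg1)).symm
  rw [h7, h6, lintegral_prod_mul hfm.aemeasurable hhm.aemeasurable, lintegral_pmf, lintegral_pmf]

lemma lintegral_add4 {Ω : Type} [MeasurableSpace Ω] (ν : Measure Ω) {a b c d : Ω → ℝ≥0∞}
    (ha : Measurable a) (hb : Measurable b) (hc : Measurable c) :
    ∫⁻ ω, (a ω + b ω + c ω + d ω) ∂ν = ∫⁻ ω, a ω ∂ν + ∫⁻ ω, b ω ∂ν + ∫⁻ ω, c ω ∂ν + ∫⁻ ω, d ω ∂ν := by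
  rw [← lintegral_add_left ha b, ← lintegral_add_left (f := fun ω => a ω + b ω) (ha.add hb) c,
    ← lintegral_add_left (f := fun ω => a ω + b ω + c ω) ((ha.add hb).add hc) d]

/-- the contribution of the two first children -/
noncomputable def S (F : V → Om V → ℝ≥0∞) (v : V) (ω : Om V) : ℝ≥0∞ :=
  (if 0 < (ω []).1 then F ((ω []).2 0 v) (sh [0] ω) else 0) +
  (if 1 < (ω []).1 then F ((ω []).2 1 v) (sh [1] ω) else 0)

lemma measurable_child (F : V → Om V → ℝ≥0∞) (hF : ∀ w, Measurable (F w)) (v : V) (a : ℕ) :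
    Measurable (fun ω : Om V => F ((ω []).2 a v) (sh [a] ω)) := by
  apply measurable_comp_countable (F := fun x (ω : Om V) => F x (sh [a] ω))
    (fun x => (hF x).comp (measurable_sh [a]))
  exact (measurable_pi_apply v).comp ((measurable_pi_apply a).comp
    (measurable_snd.comp (measurable_pi_apply [])))

lemma measurable_gate (c : ℕ) (g : Om V → ℝ≥0∞) (hg : Measurable g) :
    Measurable (fun ω : Om V => if c < (ω []).1 then g ω else 0) := by
  apply Measurable.ite _ hg measurable_const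
  have h1 : Measurable (fun ω : Om V => (ω []).1) := measurable_fst.comp (measurable_pi_apply [])
  exact h1 (measurableSet_Ioi (a := c))

lemma measurable_S (F : V → Om V → ℝ≥0∞) (hF : ∀ w, Measurable (F w)) (v : V) :
    Measurable (S F v) :=
  (measurable_gate 0 _ (measurable_child F hF v 0)).add
    (measurable_gate 1 _ (measurable_child F hF v 1))

variable (P : V → PMF V) (μ : PMF ℕ)

lemma lintegral_child0 (F : V → Om V → ℝ≥0∞) (hF : ∀ w, Measurable (F w)) (v : V) :
    ∫⁻ ω : Om V, (if 0 < (ω []).1 then F ((ω []).2 0 v) (sh [0] ω) else 0) ∂(brwLaw P μ) =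
      (∑' k, μ k * (if 0 < k then 1 else 0)) * ∑' w, P v w * ∫⁻ ω, F w ω ∂(brwLaw P μ) := by
  have h1 := lintegral_root P μ v (fun k => if 0 < k then 1 else 0) F (fun _ _ => 1) hF
    (fun _ => measurable_const)
  simp only [mul_one, lintegral_const, measure_univ, PMF.tsum_coe] at h1
  rw [← h1]
  apply lintegral_congr
  intro ω
  split_ifs <;> simp

lemma lintegral_child1 (F : V → Om V → ℝ≥0∞) (hF : ∀ w, Measurable (F w)) (v : V) :
    ∫⁻ ω : Om V, (if 1 < (ω []).1 then F ((ω []).2 1 v) (sh [1] ω) else 0) ∂(brwLaw P μ) =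
      (∑' k, μ k * (if 1 < k then 1 else 0)) * ∑' w, P v w * ∫⁻ ω, F w ω ∂(brwLaw P μ) := by
  have h1 := lintegral_root P μ v (fun k => if 1 < k then 1 else 0) (fun _ _ => 1) F
    (fun _ => measurable_const) hF
  simp only [one_mul, mul_one, lintegral_const, measure_univ, PMF.tsum_coe] at h1
  rw [← h1]
  apply lintegral_congr
  intro ω
  split_ifs <;> simp

lemma lintegral_cross (F H : V → Om V → ℝ≥0∞) (hF : ∀ w, Measurable (F w))
    (hH : ∀ w, Measurable (H w)) (v : V) :
    ∫⁻ ω : Om V, (if 0 < (ω []).1 then F ((ω []).2 0 v) (sh [0] ω) else 0) *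
      (if 1 < (ω []).1 then H ((ω []).2 1 v) (sh [1] ω) else 0) ∂(brwLaw P μ) =
      (∑' k, μ k * (if 1 < k then 1 else 0)) * ((∑' w, P v w * ∫⁻ ω, F w ω ∂(brwLaw P μ)) *
        (∑' w, P v w * ∫⁻ ω, H w ω ∂(brwLaw P μ))) := by
  have h1 := lintegral_root P μ v (fun k => if 1 < k then 1 else 0) F H hF hH
  rw [← h1]
  apply lintegral_congr
  intro ω
  by_cases h : 1 < (ω []).1
  · rw [if_pos (by omega), if_pos h, if_pos h, one_mul]
  · rw [if_neg h, if_neg h]; simp

/-- first moment -/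
lemma lintegral_S (F : V → Om V → ℝ≥0∞) (hF : ∀ w, Measurable (F w)) (v : V) :
    ∫⁻ ω, S F v ω ∂(brwLaw P μ) =
      ((∑' k, μ k * (if 0 < k then 1 else 0)) + (∑' k, μ k * (if 1 < k then 1 else 0))) *
        ∑' w, P v w * ∫⁻ ω, F w ω ∂(brwLaw P μ) := by
  unfold S
  rw [lintegral_add_left (measurable_gate 0 _ (measurable_child F hF v 0)), lintegral_child0 P μ F hF,
    lintegral_child1 P μ F hF]
  ring

/-- second moment -/
lemma lintegral_S_mul (F H : V → Om V → ℝ≥0∞) (hF : ∀ w, Measurable (F w))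
    (hH : ∀ w, Measurable (H w)) (v : V) :
    ∫⁻ ω, S F v ω * S H v ω ∂(brwLaw P μ) =
      ((∑' k, μ k * (if 0 < k then 1 else 0)) + (∑' k, μ k * (if 1 < k then 1 else 0))) *
        (∑' w, P v w * ∫⁻ ω, F w ω * H w ω ∂(brwLaw P μ)) +
      2 * (∑' k, μ k * (if 1 < k then 1 else 0)) * ((∑' w, P v w * ∫⁻ ω, F w ω ∂(brwLaw P μ)) *
        (∑' w, P v w * ∫⁻ ω, H w ω ∂(brwLaw P μ))) := by
  have hFH : ∀ w, Measurable (fun ω => F w ω * H w ω) := fun w => (hF w).mul (hH w)
  have h0 := lintegral_child0 P μ (fun w ω => F w ω * H w ω) hFH v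
  have h1 := lintegral_child1 P μ (fun w ω => F w ω * H w ω) hFH v
  have h2 := lintegral_cross P μ F H hF hH v
  have h3 := lintegral_cross P μ H F hH hF v
  have hexp : ∀ ω : Om V, S F v ω * S H v ω =
      (((if 0 < (ω []).1 then F ((ω []).2 0 v) (sh [0] ω) * H ((ω []).2 0 v) (sh [0] ω) else 0) +
      (if 1 < (ω []).1 then F ((ω []).2 1 v) (sh [1] ω) * H ((ω []).2 1 v) (sh [1] ω) else 0)) +
      (if 0 < (ω []).1 then F ((ω []).2 0 v) (sh [0] ω) else 0) *
        (if 1 < (ω []).1 then H ((ω []).2 1 v) (sh [1] ω) else 0)) +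
      (if 0 < (ω []).1 then H ((ω []).2 0 v) (sh [0] ω) else 0) *
        (if 1 < (ω []).1 then F ((ω []).2 1 v) (sh [1] ω) else 0) := by
    intro ω
    unfold S
    by_cases c0 : 0 < (ω []).1 <;> by_cases c1 : 1 < (ω []).1
    · simp only [c0, c1, if_true]; ring
    · simp only [c0, c1, if_true, if_false]; ring
    · omega
    · simp only [c0, c1, if_false]; ring
  simp only [hexp]
  have m0 := measurable_gate 0 _ (measurable_child (fun w ω => F w ω * H w ω) hFH v 0)
  have m1 := measurable_gate 1 _ (measurable_child (fun w ω => F w ω * H w ω) hFH v 1)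
  have f0 := measurable_gate 0 _ (measurable_child F hF v 0)
  have f1 := measurable_gate 1 _ (measurable_child F hF v 1)
  have g0 := measurable_gate 0 _ (measurable_child H hH v 0)
  have g1 := measurable_gate 1 _ (measurable_child H hH v 1)
  have key := lintegral_add4 (brwLaw P μ) m0 m1 (f0.mul g1) (d := fun ω : Om V =>
    (if 0 < (ω []).1 then H ((ω []).2 0 v) (sh [0] ω) else 0) *
        (if 1 < (ω []).1 then F ((ω []).2 1 v) (sh [1] ω) else 0))
  refine key.trans ?_
  rw [h0, h1, h3]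
  have h2' : ∫⁻ ω : Om V, ((fun ω : Om V => (if 0 < (ω []).1 then F ((ω []).2 0 v) (sh [0] ω) else 0)) *
      (fun ω : Om V => (if 1 < (ω []).1 then H ((ω []).2 1 v) (sh [1] ω) else 0))) ω ∂(brwLaw P μ) =
      (∑' k, μ k * (if 1 < k then 1 else 0)) * ((∑' w, P v w * ∫⁻ ω, F w ω ∂(brwLaw P μ)) *
        (∑' w, P v w * ∫⁻ ω, H w ω ∂(brwLaw P μ))) := h2
  rw [h2']
  ring

end

end Pool.Agent.Lib.MP_b68431_pr
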