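import Mathlib
import Pool.Agent.Lib.MP_b68431_pr.Radius
import Pool.Agent.Lib.MP_b68431_pr.Step
import Pool.Agent.Lib.MP_b68431_pr.Det

set_option autoImplicit false

open MeasureTheory ProbabilityTheory Filter Topology
open scoped ENNReal

namespace Pool.Agent.Lib.MP_b68431_pr

/-! ### Averages over levels -/

noncomputable def avg (φ : Vx → ℝ≥0∞) (l : ℕ) : ℝ≥0∞ := ∑' w, U l w * φ w

lemma avg_congr {φ ψ : Vx → ℝ≥0∞} {l : ℕ} (h : ∀ v : Vx, v.lev = l → φ v = ψ v) :
    avg φ l = avg ψ l := by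
  unfold avg
  apply tsum_congr
  intro w
  rw [U_apply]
  by_cases hw : w.lev = l
  · rw [h w hw]
  · simp [hw]

lemma avg_add (φ ψ : Vx → ℝ≥0∞) (l : ℕ) : avg (fun v => φ v + ψ v) l = avg φ l + avg ψ l := by
  unfold avg
  simp only [mul_add]
  exact ENNReal.tsum_add

lemma avg_mul_const (φ : Vx → ℝ≥0∞) (c : ℝ≥0∞) (l : ℕ) : avg (fun v => φ v * c) l = avg φ l * c := by
  unfold avg
  simp only [← mul_assoc]
  exact ENNReal.tsum_mul_right

lemma avg_const (c : ℝ≥0∞) (l : ℕ) : avg (fun _ => c) l = c := by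
  unfold avg
  rw [ENNReal.tsum_mul_right, PMF.tsum_coe, one_mul]

lemma avg_ind (x : Vx) (l : ℕ) : avg (fun v => if v = x then 1 else 0) l = U l x := by
  unfold avg
  simp only [mul_ite, mul_one, mul_zero]
  exact tsum_ite_eq x (fun w => U l w)

lemma avg_gate (b : ℕ) (φ : Vx → ℝ≥0∞) (l : ℕ) :
    avg (fun w => if b ≤ w.lev then φ w else 0) l = if b ≤ l then avg φ l else 0 := by
  by_cases h : b ≤ l
  · rw [if_pos h]
    apply avg_congr
    intro v hv
    rw [if_pos (by omega)]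
  · rw [if_neg h]
    rw [avg_congr (ψ := fun _ => 0)]
    · exact avg_const 0 l
    · intro v hv
      rw [if_neg (by omega)]

lemma tsum_K (v : Vx) (φ : Vx → ℝ≥0∞) : ∑' w, K v w * φ w = ∑' l, R v.lev l * avg φ l := by
  unfold avg
  simp only [K, PMF.bind_apply, ← ENNReal.tsum_mul_left, ← ENNReal.tsum_mul_right]
  rw [ENNReal.tsum_comm]
  apply tsum_congr
  intro l
  apply tsum_congr
  intro w
  ring

/-! ### The hop operator in `ℝ≥0∞` -/

noncomputable def hop (a : ℕ → ℝ≥0∞) : ℕ → ℝ≥0∞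
  | 0 => a 1
  | r + 1 => a (r + 2) + 1 / 4 * a r

lemma hop_mono {a b : ℕ → ℝ≥0∞} (h : ∀ r, a r ≤ b r) (r : ℕ) : hop a r ≤ hop b r := by
  cases r with
  | zero => exact h 1
  | succ r => exact add_le_add (h _) (mul_le_mul_right (h _) _)

lemma hop_add (a b : ℕ → ℝ≥0∞) (r : ℕ) : hop (fun r => a r + b r) r = hop a r + hop b r := by
  cases r with
  | zero => rfl
  | succ r => simp only [hop]; ring

lemma hop_mul_const (a : ℕ → ℝ≥0∞) (c : ℝ≥0∞) (r : ℕ) :
    hop (fun r => a r * c) r = hop a r * c := by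
  cases r with
  | zero => rfl
  | succ r => simp only [hop]; ring

lemma ofReal_14 : ENNReal.ofReal (1 / 4) = 1 / 4 := by
  rw [ENNReal.ofReal_div_of_pos (by norm_num)]; norm_num

lemma ofReal_54 : ENNReal.ofReal (5 / 4) = 5 / 4 := by
  rw [ENNReal.ofReal_div_of_pos (by norm_num)]; norm_num

lemma hop_ofReal (a : ℕ → ℝ) (ha : ∀ r, 0 ≤ a r) (r : ℕ) :
    hop (fun r => ENNReal.ofReal (a r)) r = ENNReal.ofReal (hopR a r) := by
  cases r with
  | zero => rfl
  | succ r =>
    have h1 := ha (r + 2)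
    have h2 := ha r
    simp only [hop, hopR]
    rw [ENNReal.ofReal_add h1 (by positivity), ENNReal.ofReal_mul (by norm_num), ofReal_14]

lemma c1 : (5 / 4 : ℝ≥0∞) * (4 / 5) = 1 := by
  rw [← ofReal_54, ← ofReal_45, ← ENNReal.ofReal_mul (by norm_num)]; norm_num

lemma c2 : (5 / 4 : ℝ≥0∞) * (1 / 5) = 1 / 4 := by
  rw [← ofReal_54, ← ofReal_15, ← ENNReal.ofReal_mul (by norm_num), ← ofReal_14]; norm_num

lemma c3 : (1 : ℝ≥0∞) + 1 / 4 = 5 / 4 := by
  rw [← ofReal_54, ← ofReal_14, ← ENNReal.ofReal_one, ← ENNReal.ofReal_add (by norm_num) (by norm_num)]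
  norm_num

lemma step_eq (β r : ℕ) (v : Vx) (hv : v.lev = β + 1 + r) (φ : Vx → ℝ≥0∞) :
    5 / 4 * ∑' w, K v w * (if β + 1 ≤ w.lev then φ w else 0) =
      hop (fun r => avg φ (β + 1 + r)) r := by
  rw [tsum_K, hv, show β + 1 + r = (β + r) + 1 by omega, tsum_R_succ, mul_add, ← mul_assoc,
    ← mul_assoc, c1, c2, one_mul, avg_gate, avg_gate, if_pos (by omega)]
  cases r with
  | zero =>
    rw [if_neg (by omega), mul_zero, add_zero]
    simp only [hop]
  | succ r =>
    rw [if_pos (by omega)]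
    simp only [hop]
    rw [show β + (r + 1) + 2 = β + 1 + (r + 2) by omega, show β + (r + 1) = β + 1 + r by omega]

/-- one step from just below the barrier -/
lemma step_below (β : ℕ) (v : Vx) (hv : v.lev = β) (φ : Vx → ℝ≥0∞) :
    avg φ (β + 1) ≤ 5 / 4 * ∑' w, K v w * (if β + 1 ≤ w.lev then φ w else 0) ∧
      ∑' w, K v w * (if β + 1 ≤ w.lev then φ w else 0) ≤ avg φ (β + 1) := by
  rw [tsum_K, hv]
  cases β with
  | zero =>
    rw [tsum_R_zero, avg_gate, if_pos (by omega)]
    constructor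
    · rw [← c3, add_mul, one_mul]
      exact le_self_add
    · exact le_rfl
  | succ k =>
    rw [tsum_R_succ, avg_gate, avg_gate, if_pos (by omega), if_neg (by omega), mul_zero, add_zero,
      ← mul_assoc, c1, one_mul]
    constructor
    · exact le_rfl
    · calc (4 / 5 : ℝ≥0∞) * avg φ (k + 2) ≤ 1 * avg φ (k + 2) := by
            apply mul_le_mul_left
            rw [← four_add_one]
            exact le_self_add
        _ = avg φ (k + 1 + 1) := one_mul _

/-! ### The counting functional -/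

/-- visits to `x` -/
noncomputable def gate (b : ℕ) (F : Vx → Om Vx → ℝ≥0∞) (w : Vx) (η : Om Vx) : ℝ≥0∞ :=
  if b ≤ w.lev then F w η else 0

noncomputable def L (b : ℕ) (x : Vx) : ℕ → Vx → Om Vx → ℝ≥0∞
  | 0 => fun v _ => if v = x then 1 else 0
  | T + 1 => fun v ω => (if v = x then 1 else 0) + S (gate b (L b x T)) v ω

lemma measurable_gate' (b : ℕ) (F : Vx → Om Vx → ℝ≥0∞) (hF : ∀ w, Measurable (F w)) (w : Vx) :
    Measurable (gate b F w) := by
  unfold gate
  by_cases h : b ≤ w.lev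
  · simp only [h, if_true]; exact hF w
  · simp only [h, if_false]; exact measurable_const

lemma measurable_L (b : ℕ) (x : Vx) (T : ℕ) (v : Vx) : Measurable (L b x T v) := by
  induction T generalizing v with
  | zero => exact measurable_const
  | succ T ih =>
    exact measurable_const.add (measurable_S _ (measurable_gate' b _ ih) v)

lemma mu_one : ∑' k, mu k * (if 0 < k then 1 else 0) = 1 := by
  have : ∀ k, mu k * (if 0 < k then 1 else 0) = mu k := by
    intro k
    rcases Nat.eq_zero_or_pos k with rfl | hk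
    · simp [mu_zero]
    · simp [hk]
  simp only [this]
  exact PMF.tsum_coe mu

lemma mu_two : ∑' k, mu k * (if 1 < k then 1 else 0) = 1 / 4 := by
  have : ∀ k, mu k * (if 1 < k then 1 else 0) = if k = 2 then 1 / 4 else 0 := by
    intro k
    rw [mu_apply]
    by_cases h : k = 2
    · subst h; simp
    · rw [if_neg h]
      by_cases h1 : k = 1
      · subst h1; simp
      · simp [h1]
  simp only [this]
  exact tsum_ite_eq 2 (fun _ => (1 / 4 : ℝ≥0∞))

/-- expectations of `L` -/
noncomputable def E1 (b : ℕ) (x : Vx) (T : ℕ) (v : Vx) : ℝ≥0∞ := ∫⁻ ω, L b x T v ω ∂(brwLaw K mu)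

noncomputable def E2 (b : ℕ) (x y : Vx) (T : ℕ) (v : Vx) : ℝ≥0∞ :=
  ∫⁻ ω, L b x T v ω * L b y T v ω ∂(brwLaw K mu)

lemma lintegral_gate (b : ℕ) (F : Vx → Om Vx → ℝ≥0∞) (w : Vx) :
    ∫⁻ ω, gate b F w ω ∂(brwLaw K mu) = if b ≤ w.lev then ∫⁻ ω, F w ω ∂(brwLaw K mu) else 0 := by
  unfold gate
  split_ifs <;> simp

lemma lintegral_gate_mul (b : ℕ) (F H : Vx → Om Vx → ℝ≥0∞) (w : Vx) :
    ∫⁻ ω, gate b F w ω * gate b H w ω ∂(brwLaw K mu) =
      if b ≤ w.lev then ∫⁻ ω, F w ω * H w ω ∂(brwLaw K mu) else 0 := by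
  unfold gate
  split_ifs <;> simp

lemma lintegral_SL (b : ℕ) (x : Vx) (T : ℕ) (v : Vx) :
    ∫⁻ ω, S (gate b (L b x T)) v ω ∂(brwLaw K mu) =
      5 / 4 * ∑' w, K v w * (if b ≤ w.lev then E1 b x T w else 0) := by
  rw [lintegral_S K mu _ (measurable_gate' b _ (measurable_L b x T)), mu_one, mu_two, c3]
  simp only [lintegral_gate]
  rfl

lemma E1_succ (b : ℕ) (x : Vx) (T : ℕ) (v : Vx) :
    E1 b x (T + 1) v = (if v = x then 1 else 0) +
      5 / 4 * ∑' w, K v w * (if b ≤ w.lev then E1 b x T w else 0) := by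
  rw [← lintegral_SL]
  unfold E1
  have : ∀ ω, L b x (T + 1) v ω = (if v = x then 1 else 0) + S (gate b (L b x T)) v ω := fun _ => rfl
  simp only [this]
  rw [lintegral_add_left measurable_const]
  simp

lemma E2_succ (b : ℕ) (x y : Vx) (T : ℕ) (v : Vx) :
    E2 b x y (T + 1) v = (if v = x then 1 else 0) * (if v = y then 1 else 0) +
      (if v = x then 1 else 0) * (5 / 4 * ∑' w, K v w * (if b ≤ w.lev then E1 b y T w else 0)) +
      (if v = y then 1 else 0) * (5 / 4 * ∑' w, K v w * (if b ≤ w.lev then E1 b x T w else 0)) +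
      (5 / 4 * ∑' w, K v w * (if b ≤ w.lev then E2 b x y T w else 0) +
        1 / 2 * ((∑' w, K v w * (if b ≤ w.lev then E1 b x T w else 0)) *
          (∑' w, K v w * (if b ≤ w.lev then E1 b y T w else 0)))) := by
  have hmx := measurable_S _ (measurable_gate' b _ (measurable_L b x T)) v
  have hmy := measurable_S _ (measurable_gate' b _ (measurable_L b y T)) v
  set px : ℝ≥0∞ := if v = x then 1 else 0 with hpx
  set py : ℝ≥0∞ := if v = y then 1 else 0 with hpy
  have hexp : ∀ ω, L b x (T + 1) v ω * L b y (T + 1) v ω =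
      px * py + px * S (gate b (L b y T)) v ω + py * S (gate b (L b x T)) v ω +
        S (gate b (L b x T)) v ω * S (gate b (L b y T)) v ω := by
    intro ω
    have e1 : L b x (T + 1) v ω = px + S (gate b (L b x T)) v ω := rfl
    have e2 : L b y (T + 1) v ω = py + S (gate b (L b y T)) v ω := rfl
    rw [e1, e2]
    ring
  unfold E2
  simp only [hexp]
  rw [lintegral_add4 (brwLaw K mu) (a := fun _ => px * py)
    (b := fun ω => px * S (gate b (L b y T)) v ω) (c := fun ω => py * S (gate b (L b x T)) v ω)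
    measurable_const (hmy.const_mul _) (hmx.const_mul _)]
  rw [lintegral_const_mul _ hmy, lintegral_const_mul _ hmx, lintegral_SL, lintegral_SL,
    lintegral_S_mul K mu _ _ (measurable_gate' b _ (measurable_L b x T))
      (measurable_gate' b _ (measurable_L b y T)), mu_one, mu_two, c3]
  simp only [lintegral_gate, lintegral_gate_mul]
  have h24 : (2 : ℝ≥0∞) * (1 / 4) = 1 / 2 := by
    rw [← ofReal_14, show (2 : ℝ≥0∞) = ENNReal.ofReal 2 by norm_num, ← ENNReal.ofReal_mul (by norm_num)]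
    rw [show (2 : ℝ) * (1 / 4) = 1 / 2 by norm_num, ENNReal.ofReal_div_of_pos (by norm_num)]
    norm_num
  rw [h24]
  simp only [lintegral_const, measure_univ, mul_one]
  rfl

end Pool.Agent.Lib.MP_b68431_pr
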