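import Mathlib
import Pool.Agent.Lib.MP_b68431_pr.Moments

set_option autoImplicit false

open MeasureTheory ProbabilityTheory Filter Topology
open scoped ENNReal

namespace Pool.Agent.Lib.MP_b68431_pr

/-- weight of a vertex -/
noncomputable def cw (x : Vx) : ℝ≥0∞ := ((4 : ℝ≥0∞) ^ x.lev)⁻¹

lemma U_rel {β i : ℕ} {x : Vx} (hx : x.lev = β + 1 + i) (r : ℕ) :
    U (β + 1 + r) x = ENNReal.ofReal (if r = i then 1 else 0) * cw x := by
  rw [U_apply]
  unfold cw
  by_cases h : r = i
  · subst h
    rw [if_pos hx, if_pos rfl, ENNReal.ofReal_one, one_mul, hx]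
  · rw [if_neg (by omega), if_neg h, ENNReal.ofReal_zero, zero_mul]

lemma hop_ofReal_mul (a : ℕ → ℝ) (ha : ∀ r, 0 ≤ a r) (c : ℝ≥0∞) (r : ℕ) :
    hop (fun r => ENNReal.ofReal (a r) * c) r = ENNReal.ofReal (hopR a r) * c := by
  rw [hop_mul_const, hop_ofReal a ha]

/-- exact first moments -/
lemma avg_E1 {β i : ℕ} {x : Vx} (hx : x.lev = β + 1 + i) (T r : ℕ) :
    avg (E1 (β + 1) x T) (β + 1 + r) = ENNReal.ofReal (f T i r) * cw x := by
  induction T generalizing r with
  | zero =>
    have : E1 (β + 1) x 0 = fun v => if v = x then 1 else 0 := by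
      funext v
      unfold E1 L
      simp
    rw [this, avg_ind, U_rel hx]
    rfl
  | succ T ih =>
    have h1 : avg (E1 (β + 1) x (T + 1)) (β + 1 + r) =
        avg (fun v => (if v = x then 1 else 0) +
          hop (fun r => avg (E1 (β + 1) x T) (β + 1 + r)) r) (β + 1 + r) := by
      apply avg_congr
      intro v hv
      rw [E1_succ, step_eq β r v hv]
    rw [h1, avg_add, avg_ind, avg_const, U_rel hx]
    simp only [ih]
    rw [hop_ofReal_mul _ (fun r => f_nonneg T i r), ← add_mul, ← ENNReal.ofReal_add]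
    · rfl
    · split_ifs <;> norm_num
    · exact hopR_nonneg (fun r => f_nonneg T i r) r

lemma step_E1 {β i : ℕ} {x : Vx} (hx : x.lev = β + 1 + i) (T r : ℕ) {v : Vx}
    (hv : v.lev = β + 1 + r) :
    5 / 4 * ∑' w, K v w * (if β + 1 ≤ w.lev then E1 (β + 1) x T w else 0) =
      ENNReal.ofReal (hopR (f T i) r) * cw x := by
  rw [step_eq β r v hv]
  simp only [avg_E1 hx]
  rw [hop_ofReal_mul _ (fun r => f_nonneg T i r)]

lemma sum_E1 {β i : ℕ} {x : Vx} (hx : x.lev = β + 1 + i) (T r : ℕ) {v : Vx}
    (hv : v.lev = β + 1 + r) :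
    ∑' w, K v w * (if β + 1 ≤ w.lev then E1 (β + 1) x T w else 0) =
      4 / 5 * (ENNReal.ofReal (hopR (f T i) r) * cw x) := by
  rw [← step_E1 hx T r hv, ← mul_assoc]
  rw [mul_comm (4 / 5 : ℝ≥0∞), c1, one_mul]

lemma hopR_f_le (T i r : ℕ) : hopR (f T i) r ≤ Phi i r := by
  have h1 := f_le_Phi (T + 1) i r
  have h2 : f (T + 1) i r = (if r = i then 1 else 0) + hopR (f T i) r := rfl
  rw [h2] at h1
  have h3 : (0 : ℝ) ≤ if r = i then 1 else 0 := by split_ifs <;> norm_num
  linarith

lemma c4 : (1 / 2 : ℝ≥0∞) * (4 / 5 * (4 / 5)) = ENNReal.ofReal (8 / 25) := by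
  have h : (1 / 2 : ℝ≥0∞) = ENNReal.ofReal (1 / 2) := by
    rw [ENNReal.ofReal_div_of_pos (by norm_num)]; norm_num
  rw [h, ← ofReal_45, ← ENNReal.ofReal_mul (by norm_num), ← ENNReal.ofReal_mul (by norm_num)]
  norm_num

/-- the diagonal part of the bound for second moments -/
noncomputable def diag (x y : Vx) (c : ℝ≥0∞) : ℝ≥0∞ := if x = y then c * cw x else 0

/-- second moments -/
lemma avg_E2 {β i j : ℕ} {x y : Vx} (hx : x.lev = β + 1 + i) (hy : y.lev = β + 1 + j) (T r : ℕ) :
    avg (E2 (β + 1) x y T) (β + 1 + r) ≤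
      diag x y (ENNReal.ofReal (Phi i r)) + ENNReal.ofReal (Psi i j r) * (cw x * cw y) := by
  have hdiag : ∀ r, avg (fun v => (if v = x then (1 : ℝ≥0∞) else 0) * (if v = y then 1 else 0)) (β + 1 + r) =
      diag x y (ENNReal.ofReal (if r = i then 1 else 0)) := by
    intro r
    unfold diag
    by_cases h : x = y
    · subst h
      rw [if_pos rfl, ← U_rel hx, ← avg_ind]
      apply avg_congr
      intro v _
      by_cases hv : v = x <;> simp [hv]
    · rw [if_neg h]
      rw [avg_congr (ψ := fun _ => 0)]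
      · exact avg_const 0 _
      · intro v _
        by_cases hv : v = x
        · subst hv; simp [h]
        · simp [hv]
  have hmono : ∀ {c d : ℝ≥0∞}, c ≤ d → diag x y c ≤ diag x y d := by
    intro c d hcd
    unfold diag
    split_ifs
    · exact mul_le_mul_left hcd _
    · exact le_rfl
  have hind : ∀ r, (if r = i then (1 : ℝ) else 0) ≤ Phi i r := by
    intro r
    have h1 := Phi_super i r
    have h2 := hopR_nonneg (Phi_nonneg i) r
    linarith
  induction T generalizing r with
  | zero =>
    have : E2 (β + 1) x y 0 = fun v => (if v = x then 1 else 0) * (if v = y then 1 else 0) := by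
      funext v
      unfold E2 L
      simp
    rw [this, hdiag]
    exact le_add_right (hmono (ENNReal.ofReal_le_ofReal (hind r)))
  | succ T ih =>
    have ih' : ∀ r, avg (E2 (β + 1) x y T) (β + 1 + r) ≤
      diag x y (ENNReal.ofReal (Phi i r)) + ENNReal.ofReal (Psi i j r) * (cw x * cw y) :=
      fun r => ih r
    set hi := hopR (f T i) r with hhi
    set hj := hopR (f T j) r with hhj
    have hi0 : 0 ≤ hi := hopR_nonneg (fun r => f_nonneg T i r) r
    have hj0 : 0 ≤ hj := hopR_nonneg (fun r => f_nonneg T j r) r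
    have h1 : avg (E2 (β + 1) x y (T + 1)) (β + 1 + r) =
        avg (fun v => (if v = x then (1 : ℝ≥0∞) else 0) * (if v = y then 1 else 0) +
          (if v = x then 1 else 0) * (ENNReal.ofReal hj * cw y) +
          (if v = y then 1 else 0) * (ENNReal.ofReal hi * cw x) +
          (hop (fun r => avg (E2 (β + 1) x y T) (β + 1 + r)) r +
            ENNReal.ofReal (8 / 25) * ((ENNReal.ofReal hi * cw x) * (ENNReal.ofReal hj * cw y))))
          (β + 1 + r) := by
      apply avg_congr
      intro v hv
      rw [E2_succ, step_E1 hx T r hv, step_E1 hy T r hv, step_eq β r v hv, sum_E1 hx T r hv,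
        sum_E1 hy T r hv, ← c4]
      ring
    rw [h1, avg_add, avg_add, avg_add, hdiag, avg_mul_const, avg_mul_const, avg_ind, avg_ind,
      avg_const, U_rel hx, U_rel hy]
    -- the hop term
    have h2 : hop (fun r => avg (E2 (β + 1) x y T) (β + 1 + r)) r ≤
        diag x y (ENNReal.ofReal (hopR (Phi i) r)) + ENNReal.ofReal (hopR (Psi i j) r) * (cw x * cw y) := by
      refine (hop_mono ih' r).trans (le_of_eq ?_)
      rw [hop_add, hop_ofReal_mul _ (Psi_nonneg i j)]
      congr 1
      unfold diag
      by_cases h : x = y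
      · simp only [h, if_true]
        exact hop_ofReal_mul _ (Phi_nonneg i) _ r
      · simp only [h, if_false]
        cases r <;> simp [hop]
    have h3 : diag x y (ENNReal.ofReal (if r = i then 1 else 0)) +
        diag x y (ENNReal.ofReal (hopR (Phi i) r)) ≤ diag x y (ENNReal.ofReal (Phi i r)) := by
      have e : diag x y (ENNReal.ofReal (if r = i then 1 else 0)) +
        diag x y (ENNReal.ofReal (hopR (Phi i) r)) =
        diag x y (ENNReal.ofReal ((if r = i then 1 else 0) + hopR (Phi i) r)) := by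
        rw [ENNReal.ofReal_add (by split_ifs <;> norm_num) (hopR_nonneg (Phi_nonneg i) r)]
        unfold diag
        by_cases h : x = y
        · rw [if_pos h, if_pos h, if_pos h]; ring
        · rw [if_neg h, if_neg h, if_neg h, add_zero]
      rw [e]
      exact hmono (ENNReal.ofReal_le_ofReal (Phi_super i r))
    have h4 : ENNReal.ofReal (if r = i then 1 else 0) * cw x * (ENNReal.ofReal hj * cw y) +
        ENNReal.ofReal (if r = j then 1 else 0) * cw y * (ENNReal.ofReal hi * cw x) +
        ENNReal.ofReal (hopR (Psi i j) r) * (cw x * cw y) +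
        ENNReal.ofReal (8 / 25) * ((ENNReal.ofReal hi * cw x) * (ENNReal.ofReal hj * cw y)) ≤
        ENNReal.ofReal (Psi i j r) * (cw x * cw y) := by
      have e1 : ENNReal.ofReal (if r = i then 1 else 0) * cw x * (ENNReal.ofReal hj * cw y) =
          ENNReal.ofReal (if r = i then hj else 0) * (cw x * cw y) := by
        split_ifs
        · rw [ENNReal.ofReal_one]; ring
        · simp
      have e2 : ENNReal.ofReal (if r = j then 1 else 0) * cw y * (ENNReal.ofReal hi * cw x) =
          ENNReal.ofReal (if r = j then hi else 0) * (cw x * cw y) := by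
        split_ifs
        · rw [ENNReal.ofReal_one]; ring
        · simp
      have e3 : ENNReal.ofReal (8 / 25) * ((ENNReal.ofReal hi * cw x) * (ENNReal.ofReal hj * cw y)) =
          ENNReal.ofReal (8 / 25 * (hi * hj)) * (cw x * cw y) := by
        rw [ENNReal.ofReal_mul (by norm_num), ENNReal.ofReal_mul hi0]; ring
      rw [e1, e2, e3, ← add_mul, ← add_mul, ← add_mul]
      have p1 : (0 : ℝ) ≤ if r = i then hj else 0 := by split_ifs <;> [exact hj0; exact le_rfl]
      have p2 : (0 : ℝ) ≤ if r = j then hi else 0 := by split_ifs <;> [exact hi0; exact le_rfl]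
      have p3 : 0 ≤ hopR (Psi i j) r := hopR_nonneg (Psi_nonneg i j) r
      rw [← ENNReal.ofReal_add p1 p2, ← ENNReal.ofReal_add (by positivity) p3,
        ← ENNReal.ofReal_add (by positivity) (by positivity)]
      apply mul_le_mul_left
      apply ENNReal.ofReal_le_ofReal
      exact Psi_super i j r hj0 (hopR_f_le T i r) (hopR_f_le T j r)
    calc _ ≤ diag x y (ENNReal.ofReal (if r = i then 1 else 0)) +
          ENNReal.ofReal (if r = i then 1 else 0) * cw x * (ENNReal.ofReal hj * cw y) +
          ENNReal.ofReal (if r = j then 1 else 0) * cw y * (ENNReal.ofReal hi * cw x) +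
          ((diag x y (ENNReal.ofReal (hopR (Phi i) r)) +
            ENNReal.ofReal (hopR (Psi i j) r) * (cw x * cw y)) +
            ENNReal.ofReal (8 / 25) * ((ENNReal.ofReal hi * cw x) * (ENNReal.ofReal hj * cw y))) := by
          gcongr
      _ = (diag x y (ENNReal.ofReal (if r = i then 1 else 0)) +
          diag x y (ENNReal.ofReal (hopR (Phi i) r))) +
          (ENNReal.ofReal (if r = i then 1 else 0) * cw x * (ENNReal.ofReal hj * cw y) +
          ENNReal.ofReal (if r = j then 1 else 0) * cw y * (ENNReal.ofReal hi * cw x) +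
          ENNReal.ofReal (hopR (Psi i j) r) * (cw x * cw y) +
          ENNReal.ofReal (8 / 25) * ((ENNReal.ofReal hi * cw x) * (ENNReal.ofReal hj * cw y))) := by
          ring
      _ ≤ _ := add_le_add h3 h4

/-- first moment from just below the barrier -/
lemma E1_below {β i : ℕ} {x v : Vx} (hx : x.lev = β + 1 + i) (hv : v.lev = β) (T : ℕ) :
    ENNReal.ofReal (f T i 0) * cw x ≤ E1 (β + 1) x (T + 1) v := by
  rw [E1_succ, ← avg_E1 hx T 0]
  exact le_add_left (step_below β v hv _).1

/-- second moment from just below the barrier -/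
lemma E2_below {β i j : ℕ} {x y v : Vx} (hx : x.lev = β + 1 + i) (hy : y.lev = β + 1 + j)
    (hv : v.lev = β) (T : ℕ) :
    E2 (β + 1) x y (T + 1) v ≤ diag x y (ENNReal.ofReal (5 / 2 * 2 ^ i)) +
      ENNReal.ofReal (122 * (2 ^ i * 2 ^ j)) * (cw x * cw y) := by
  have hvx : v ≠ x := by rintro rfl; omega
  have hvy : v ≠ y := by rintro rfl; omega
  rw [E2_succ, if_neg hvx, if_neg hvy]
  simp only [zero_mul, zero_add]
  have h1 := (step_below β v hv (E2 (β + 1) x y T)).2
  have h2 := (step_below β v hv (E1 (β + 1) x T)).2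
  have h3 := (step_below β v hv (E1 (β + 1) y T)).2
  have h4 := avg_E2 hx hy T 0
  have h5 := avg_E1 hx T 0
  have h6 := avg_E1 hy T 0
  rw [add_zero] at h4 h5 h6
  have h7 : avg (E1 (β + 1) x T) (β + 1) ≤ ENNReal.ofReal (2 * 2 ^ i) * cw x := by
    rw [h5]
    apply mul_le_mul_left
    apply ENNReal.ofReal_le_ofReal
    rw [← Phi_zero]
    exact f_le_Phi T i 0
  have h8 : avg (E1 (β + 1) y T) (β + 1) ≤ ENNReal.ofReal (2 * 2 ^ j) * cw y := by
    rw [h6]
    apply mul_le_mul_left
    apply ENNReal.ofReal_le_ofReal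
    rw [← Phi_zero]
    exact f_le_Phi T j 0
  rw [Phi_zero, Psi_zero] at h4
  have h12 : (1 / 2 : ℝ≥0∞) = ENNReal.ofReal (1 / 2) := by
    rw [ENNReal.ofReal_div_of_pos (by norm_num)]; norm_num
  calc _ ≤ 5 / 4 * (diag x y (ENNReal.ofReal (2 * 2 ^ i)) +
          ENNReal.ofReal (96 * (2 ^ i * 2 ^ j)) * (cw x * cw y)) +
          1 / 2 * ((ENNReal.ofReal (2 * 2 ^ i) * cw x) * (ENNReal.ofReal (2 * 2 ^ j) * cw y)) := by
        gcongr
        · exact h1.trans h4
        · exact h2.trans h7
        · exact h3.trans h8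
    _ = _ := by
        have e1 : 5 / 4 * diag x y (ENNReal.ofReal (2 * 2 ^ i)) = diag x y (ENNReal.ofReal (5 / 2 * 2 ^ i)) := by
          unfold diag
          split_ifs
          · rw [← ofReal_54, ← mul_assoc, ← ENNReal.ofReal_mul (by norm_num)]
            congr 2
            ring
          · simp
        have e2 : 5 / 4 * (ENNReal.ofReal (96 * (2 ^ i * 2 ^ j)) * (cw x * cw y)) =
            ENNReal.ofReal (120 * (2 ^ i * 2 ^ j)) * (cw x * cw y) := by
          rw [← ofReal_54, ← mul_assoc, ← ENNReal.ofReal_mul (by norm_num)]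
          congr 2
          ring
        have e3 : 1 / 2 * ((ENNReal.ofReal (2 * 2 ^ i) * cw x) * (ENNReal.ofReal (2 * 2 ^ j) * cw y)) =
            ENNReal.ofReal (2 * (2 ^ i * 2 ^ j)) * (cw x * cw y) := by
          rw [h12]
          calc _ = (ENNReal.ofReal (1 / 2) * (ENNReal.ofReal (2 * 2 ^ i) * ENNReal.ofReal (2 * 2 ^ j))) *
                (cw x * cw y) := by ring
            _ = _ := by
              rw [← ENNReal.ofReal_mul (by positivity), ← ENNReal.ofReal_mul (by norm_num)]
              congr 2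
              ring
        rw [mul_add, e1, e2, e3, add_assoc, ← add_mul, ← ENNReal.ofReal_add (by positivity) (by positivity)]
        congr 3
        ring

end Pool.Agent.Lib.MP_b68431_pr
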