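import Mathlib
import Pool.Agent.Lib.MP_b68431_pr.Bounds

set_option autoImplicit false

open MeasureTheory ProbabilityTheory Filter Topology
open scoped ENNReal

namespace Pool.Agent.Lib.MP_b68431_pr

/-- two families of particles meet -/
def Meet (v w : Vx) (η η' : Om Vx) : Prop :=
  ∃ s t : List ℕ, alive η s ∧ alive η' t ∧ pos η v s = pos η' w t

/-- Cauchy-Schwarz -/
lemma cauchy_schwarz {Ω : Type} [MeasurableSpace Ω] (ν : Measure Ω) (Z : Ω → ℝ≥0∞)
    (hZ : Measurable Z) : (∫⁻ ω, Z ω ∂ν) ^ 2 ≤ (∫⁻ ω, Z ω ^ 2 ∂ν) * ν {ω | Z ω ≠ 0} := by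
  have hset : MeasurableSet {ω | Z ω ≠ 0} := hZ (measurableSet_singleton 0).compl
  set I : Ω → ℝ≥0∞ := Set.indicator {ω | Z ω ≠ 0} 1 with hI
  have hIm : Measurable I := measurable_one.indicator hset
  have h1 : ∫⁻ ω, Z ω ∂ν = ∫⁻ ω, (Z * I) ω ∂ν := by
    apply lintegral_congr
    intro ω
    simp only [Pi.mul_apply, hI, Set.indicator]
    by_cases h : Z ω = 0
    · simp [h]
    · simp [h]
  have h2 := ENNReal.lintegral_mul_le_Lp_mul_Lq ν Real.HolderConjugate.two_two hZ.aemeasurable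
    hIm.aemeasurable
  rw [← h1] at h2
  have h3 : ∫⁻ ω, I ω ^ (2 : ℝ) ∂ν = ν {ω | Z ω ≠ 0} := by
    rw [← lintegral_indicator_one hset]
    apply lintegral_congr
    intro ω
    simp only [hI, Set.indicator]
    split_ifs <;> simp
  rw [h3] at h2
  have h4 : ∀ a : ℝ≥0∞, (a ^ (1 / (2 : ℝ))) ^ 2 = a := by
    intro a
    rw [← ENNReal.rpow_natCast, ← ENNReal.rpow_mul]
    norm_num
  have h5 : ∫⁻ ω, Z ω ^ (2 : ℝ) ∂ν = ∫⁻ ω, Z ω ^ 2 ∂ν := by
    apply lintegral_congr
    intro ω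
    exact ENNReal.rpow_two _
  rw [h5] at h2
  calc (∫⁻ ω, Z ω ∂ν) ^ 2 ≤ ((∫⁻ ω, Z ω ^ 2 ∂ν) ^ (1 / (2 : ℝ)) * (ν {ω | Z ω ≠ 0}) ^ (1 / (2 : ℝ))) ^ 2 :=
        pow_le_pow_left' h2 2
    _ = (∫⁻ ω, Z ω ^ 2 ∂ν) * ν {ω | Z ω ≠ 0} := by rw [mul_pow, h4, h4]

lemma L_pos {b : ℕ} {x : Vx} {T : ℕ} {v : Vx} {ω : Om Vx} (h : L b x T v ω ≠ 0) :
    ∃ s, alive ω s ∧ pos ω v s = x := by
  induction T generalizing v ω with
  | zero =>
    have : v = x := by
      by_contra hc
      exact h (if_neg hc)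
    exact ⟨[], trivial, this⟩
  | succ T ih =>
    by_cases hv : v = x
    · exact ⟨[], trivial, hv⟩
    · have e : L b x (T + 1) v ω = (if v = x then 1 else 0) + S (gate b (L b x T)) v ω := rfl
      rw [e, if_neg hv, zero_add] at h
      unfold S at h
      have hcase : ∀ a : ℕ, (if a < (ω []).1 then gate b (L b x T) ((ω []).2 a v) (sh [a] ω) else 0) ≠ 0 →
          ∃ s, alive ω s ∧ pos ω v s = x := by
        intro a ha
        have h1 : a < (ω []).1 := by by_contra hc; simp [hc] at ha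
        rw [if_pos h1] at ha
        unfold gate at ha
        have h2 : L b x T ((ω []).2 a v) (sh [a] ω) ≠ 0 := by
          intro hz; rw [hz] at ha; simp at ha
        obtain ⟨s, hs1, hs2⟩ := ih h2
        refine ⟨s ++ [a], ?_, ?_⟩
        · rw [alive_append]; exact ⟨⟨trivial, h1⟩, hs1⟩
        · rw [pos_append]; exact hs2
      by_cases h0 : (if 0 < (ω []).1 then gate b (L b x T) ((ω []).2 0 v) (sh [0] ω) else 0) = 0
      · rw [h0, zero_add] at h
        exact hcase 1 h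
      · exact hcase 0 h0

/-! ### Sums over the vertices of a set of levels -/

/-- the vertices with level in `J` -/
noncomputable def VJ (J : Finset ℕ) : Finset Vx :=
  (J.sigma (fun n => (Finset.univ : Finset (Fin (4 ^ n))))).map
    ⟨fun p => Vx.mk p.1 p.2, by
      rintro ⟨k, x⟩ ⟨l, y⟩ h
      simp only [Vx.mk.injEq] at h
      obtain ⟨rfl, h⟩ := h
      rw [eq_of_heq h]⟩

lemma sum_VJ {M : Type} [AddCommMonoid M] (J : Finset ℕ) (g : ℕ → M) :
    ∑ x ∈ VJ J, g x.lev = ∑ n ∈ J, (4 ^ n) • g n := by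
  unfold VJ
  rw [Finset.sum_map, Finset.sum_sigma]
  apply Finset.sum_congr rfl
  intro n _
  refine (Finset.sum_const (g n)).trans ?_
  rw [Finset.card_univ, Fintype.card_fin]

lemma mem_VJ {J : Finset ℕ} {x : Vx} (hx : x ∈ VJ J) : x.lev ∈ J := by
  unfold VJ at hx
  rw [Finset.mem_map] at hx
  obtain ⟨⟨n, a⟩, h1, h2⟩ := hx
  rw [Finset.mem_sigma] at h1
  rw [← h2]
  exact h1.1

/-- real bound for the second moments -/
noncomputable def B2 (b n m : ℕ) (δ : ℝ) : ℝ :=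
  δ * (5 / 2 * 2 ^ (n - b) * (1 / 4) ^ n) + 122 * (2 ^ (n - b) * 2 ^ (m - b)) * ((1 / 4) ^ n * (1 / 4) ^ m)

lemma cw_eq (x : Vx) : cw x = ENNReal.ofReal ((1 / 4) ^ x.lev) := by
  unfold cw
  rw [inv_four_pow, one_div, inv_pow]

lemma E2_le {β : ℕ} {x y v : Vx} (hx : β + 1 ≤ x.lev) (hy : β + 1 ≤ y.lev) (hv : v.lev = β) (T : ℕ) :
    E2 (β + 1) x y (T + 1) v ≤
      ENNReal.ofReal (B2 (β + 1) x.lev y.lev (if x = y then 1 else 0)) := by
  have h := E2_below (β := β) (i := x.lev - (β + 1)) (j := y.lev - (β + 1)) (x := x) (y := y) (v := v)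
    (by omega) (by omega) hv T
  refine h.trans (le_of_eq ?_)
  unfold diag B2
  rw [cw_eq, cw_eq, ← ENNReal.ofReal_mul (by positivity), ← ENNReal.ofReal_mul (by positivity)]
  by_cases hxy : x = y
  · rw [if_pos hxy, if_pos hxy, ← ENNReal.ofReal_mul (by positivity), ← ENNReal.ofReal_add (by positivity) (by positivity)]
    congr 1
    ring
  · rw [if_neg hxy, if_neg hxy, zero_add, ← ENNReal.ofReal_mul (by positivity)]
    congr 1
    ring

lemma pow_sub_mul (n b : ℕ) (h : b ≤ n) : (2 : ℝ) ^ (n - b) = 2 ^ n * (1 / 2) ^ b := by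
  have : (2 : ℝ) ^ n = 2 ^ (n - b) * 2 ^ b := by rw [← pow_add]; congr 1; omega
  rw [this, mul_assoc, two_mul_half, mul_one]

/-- the real inequality for the product of the two bounds -/
lemma B2_mul_le {b b' n m : ℕ} (hb : 1 ≤ b) (hb' : 1 ≤ b') (hn : b ≤ n) (hn' : b' ≤ n)
    (hm : b ≤ m) (hm' : b' ≤ m) {δ : ℝ} (hδ : δ = 0 ∨ (δ = 1 ∧ n = m)) :
    B2 b n m δ * B2 b' n m δ ≤ δ * (159 * (1 / 2) ^ (b + b') * (1 / 4) ^ n) +
      14884 * ((1 / 2) ^ (b + b')) ^ 2 * ((1 / 4) ^ n * (1 / 4) ^ m) := by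
  unfold B2
  rw [pow_sub_mul n b hn, pow_sub_mul n b' hn', pow_sub_mul m b hm, pow_sub_mul m b' hm', pow_add]
  set p : ℝ := (1 / 2) ^ b with hp
  set p' : ℝ := (1 / 2) ^ b' with hp'
  set t : ℝ := (1 / 2) ^ n with ht
  set u : ℝ := (1 / 2) ^ m with hu
  have hp0 : 0 < p := by positivity
  have hp0' : 0 < p' := by positivity
  have ht0 : 0 < t := by positivity
  have hu0 : 0 < u := by positivity
  have hph : p ≤ 1 / 2 := by
    rw [hp]; exact pow_le_of_le_one (by norm_num) (by norm_num) (by omega)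
  have hph' : p' ≤ 1 / 2 := by
    rw [hp']; exact pow_le_of_le_one (by norm_num) (by norm_num) (by omega)
  have hth : t ≤ 1 / 2 := by
    rw [ht]; exact pow_le_of_le_one (by norm_num) (by norm_num) (by omega)
  have h4n : (1 / 4 : ℝ) ^ n = t * t := by rw [ht, ← mul_pow]; norm_num
  have h4m : (1 / 4 : ℝ) ^ m = u * u := by rw [hu, ← mul_pow]; norm_num
  have h2n : (2 : ℝ) ^ n * t = 1 := two_mul_half n
  have h2m : (2 : ℝ) ^ m * u = 1 := two_mul_half m
  rw [h4n, h4m]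
  have e1 : 5 / 2 * (2 ^ n * p) * (t * t) = 5 / 2 * p * t := by
    linear_combination (5 / 2 * p * t) * h2n
  have e1' : 5 / 2 * (2 ^ n * p') * (t * t) = 5 / 2 * p' * t := by
    linear_combination (5 / 2 * p' * t) * h2n
  have e2 : ∀ c : ℝ, 122 * ((2 : ℝ) ^ n * c * (2 ^ m * c)) * (t * t * (u * u)) = 122 * c ^ 2 * (t * u) := by
    intro c
    have h3 : ((2 : ℝ) ^ n * t) * (2 ^ m * u) = 1 := by rw [h2n, h2m, one_mul]
    linear_combination (122 * c ^ 2 * t * u) * h3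
  rw [e1, e1', e2, e2]
  rcases hδ with rfl | ⟨rfl, rfl⟩
  · apply le_of_eq
    ring
  · have htu : u = t := rfl
    rw [htu]
    -- (5/2 p t + 122 p² t²)(5/2 p' t + 122 p'² t²) ≤ 159 p p' t² + 14884 p² p'² t⁴
    have h3 : 0 < p * p' * t ^ 2 := by positivity
    have h5 : p * t ≤ 1 / 4 := by nlinarith
    have h6 : p' * t ≤ 1 / 4 := by nlinarith
    have h7 : (1 * (5 / 2 * p * t) + 122 * p ^ 2 * (t * t)) * (1 * (5 / 2 * p' * t) + 122 * p' ^ 2 * (t * t)) =
        (p * p' * t ^ 2) * (25 / 4 + 305 * (p * t) + 305 * (p' * t)) + 14884 * (p * p') ^ 2 * (t * t * (t * t)) := by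
      ring
    rw [h7]
    have h8 : (p * p' * t ^ 2) * (25 / 4 + 305 * (p * t) + 305 * (p' * t)) ≤ (p * p' * t ^ 2) * 159 := by
      apply mul_le_mul_of_nonneg_left _ h3.le
      linarith
    linarith

lemma B2_nonneg {b n m : ℕ} {δ : ℝ} (hδ : 0 ≤ δ) : 0 ≤ B2 b n m δ := by
  unfold B2; positivity

section
variable (v w : Vx) (T : ℕ)

/-- the window of levels -/
noncomputable def win (v w : Vx) : Finset ℕ :=
  Finset.Ico (v.lev + w.lev + 1) (v.lev + w.lev + 1 + 2 ^ (v.lev + w.lev))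

/-- number of coincidences -/
noncomputable def Sig (p : Om Vx × Om Vx) : ℝ≥0∞ :=
  ∑ x ∈ VJ (win v w), L (v.lev + 1) x (T + 1) v p.1 * L (w.lev + 1) x (T + 1) w p.2

lemma measurable_Sig : Measurable (Sig v w T) := by
  unfold Sig
  apply Finset.measurable_sum
  intro x _
  exact ((measurable_L _ _ _ _).comp measurable_fst).mul ((measurable_L _ _ _ _).comp measurable_snd)

lemma meet_of_Sig {p : Om Vx × Om Vx} (h : Sig v w T p ≠ 0) : Meet v w p.1 p.2 := by
  unfold Sig at h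
  obtain ⟨x, _, hx⟩ := Finset.exists_ne_zero_of_sum_ne_zero h
  obtain ⟨s, hs1, hs2⟩ := L_pos (left_ne_zero_of_mul hx)
  obtain ⟨t, ht1, ht2⟩ := L_pos (right_ne_zero_of_mul hx)
  exact ⟨s, t, hs1, ht1, hs2.trans ht2.symm⟩

/-- the real lower bound for the mean -/
noncomputable def mean1 : ℝ :=
  ∑ n ∈ win v w, f T (n - (v.lev + 1)) 0 * f T (n - (w.lev + 1)) 0 * (1 / 4) ^ n

lemma lintegral_Sig : ENNReal.ofReal (mean1 v w T) ≤
    ∫⁻ p, Sig v w T p ∂((brwLaw K mu).prod (brwLaw K mu)) := by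
  unfold Sig
  rw [lintegral_finsetSum]
  · have h1 : ∀ x ∈ VJ (win v w), ENNReal.ofReal (f T (x.lev - (v.lev + 1)) 0 * f T (x.lev - (w.lev + 1)) 0 *
        ((1 / 4) ^ x.lev * (1 / 4) ^ x.lev)) ≤
        ∫⁻ p : Om Vx × Om Vx, L (v.lev + 1) x (T + 1) v p.1 * L (w.lev + 1) x (T + 1) w p.2
          ∂((brwLaw K mu).prod (brwLaw K mu)) := by
      intro x hx
      have hx' := mem_VJ hx
      rw [win, Finset.mem_Ico] at hx'
      rw [lintegral_prod_mul (measurable_L _ _ _ _).aemeasurable (measurable_L _ _ _ _).aemeasurable]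
      have h2 := E1_below (β := v.lev) (i := x.lev - (v.lev + 1)) (x := x) (v := v) (by omega) rfl T
      have h3 := E1_below (β := w.lev) (i := x.lev - (w.lev + 1)) (x := x) (v := w) (by omega) rfl T
      refine le_trans (le_of_eq ?_) (mul_le_mul' h2 h3)
      rw [cw_eq, ← ENNReal.ofReal_mul (f_nonneg _ _ _), ← ENNReal.ofReal_mul (f_nonneg _ _ _),
        ← ENNReal.ofReal_mul (mul_nonneg (f_nonneg _ _ _) (by positivity))]
      congr 1
      ring
    refine le_trans ?_ (Finset.sum_le_sum h1)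
    rw [← ENNReal.ofReal_sum_of_nonneg]
    · apply ENNReal.ofReal_le_ofReal
      rw [sum_VJ (win v w) (fun n => f T (n - (v.lev + 1)) 0 * f T (n - (w.lev + 1)) 0 *
        ((1 / 4) ^ n * (1 / 4) ^ n))]
      unfold mean1
      apply Finset.sum_le_sum
      intro n _
      rw [nsmul_eq_mul]
      push_cast
      have h4 : (4 : ℝ) ^ n * (1 / 4) ^ n = 1 := by rw [← mul_pow]; norm_num
      apply le_of_eq
      linear_combination -(f T (n - (v.lev + 1)) 0 * f T (n - (w.lev + 1)) 0 * (1 / 4) ^ n) * h4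
    · intro x _
      have := f_nonneg T (x.lev - (v.lev + 1)) 0
      have := f_nonneg T (x.lev - (w.lev + 1)) 0
      positivity
  · intro x _
    exact ((measurable_L _ _ _ _).comp measurable_fst).mul ((measurable_L _ _ _ _).comp measurable_snd)

lemma card_win : (win v w).card = 2 ^ (v.lev + w.lev) := by
  unfold win
  rw [Nat.card_Ico, Nat.add_sub_cancel_left]

lemma lintegral_Sig_sq : ∫⁻ p, Sig v w T p ^ 2 ∂((brwLaw K mu).prod (brwLaw K mu)) ≤
    ENNReal.ofReal 1000 := by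
  have hexp : ∀ p : Om Vx × Om Vx, Sig v w T p ^ 2 = ∑ x ∈ VJ (win v w), ∑ y ∈ VJ (win v w),
      (L (v.lev + 1) x (T + 1) v p.1 * L (v.lev + 1) y (T + 1) v p.1) *
      (L (w.lev + 1) x (T + 1) w p.2 * L (w.lev + 1) y (T + 1) w p.2) := by
    intro p
    unfold Sig
    rw [pow_two, Finset.sum_mul_sum]
    apply Finset.sum_congr rfl
    intro x _
    apply Finset.sum_congr rfl
    intro y _
    ring
  simp only [hexp]
  have hm : ∀ x y : Vx, Measurable (fun p : Om Vx × Om Vx =>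
      (L (v.lev + 1) x (T + 1) v p.1 * L (v.lev + 1) y (T + 1) v p.1) *
      (L (w.lev + 1) x (T + 1) w p.2 * L (w.lev + 1) y (T + 1) w p.2)) := by
    intro x y
    exact (((measurable_L _ _ _ _).mul (measurable_L _ _ _ _)).comp measurable_fst).mul
      (((measurable_L _ _ _ _).mul (measurable_L _ _ _ _)).comp measurable_snd)
  rw [lintegral_finsetSum _ (fun x _ => Finset.measurable_sum _ (fun y _ => hm x y))]
  have h1 : ∀ x ∈ VJ (win v w), ∫⁻ p : Om Vx × Om Vx, ∑ y ∈ VJ (win v w),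
      (L (v.lev + 1) x (T + 1) v p.1 * L (v.lev + 1) y (T + 1) v p.1) *
      (L (w.lev + 1) x (T + 1) w p.2 * L (w.lev + 1) y (T + 1) w p.2)
        ∂((brwLaw K mu).prod (brwLaw K mu)) ≤
      ENNReal.ofReal (159 * (1 / 2) ^ (v.lev + 1 + (w.lev + 1)) * (1 / 4) ^ x.lev +
        14884 * ((1 / 2) ^ (v.lev + 1 + (w.lev + 1))) ^ 2 * 2 ^ (v.lev + w.lev) * (1 / 4) ^ x.lev) := by
    intro x hx
    have hx' := mem_VJ hx
    rw [win, Finset.mem_Ico] at hx'
    rw [lintegral_finsetSum _ (fun y _ => hm x y)]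
    have h2 : ∀ y ∈ VJ (win v w), ∫⁻ p : Om Vx × Om Vx,
      (L (v.lev + 1) x (T + 1) v p.1 * L (v.lev + 1) y (T + 1) v p.1) *
      (L (w.lev + 1) x (T + 1) w p.2 * L (w.lev + 1) y (T + 1) w p.2)
        ∂((brwLaw K mu).prod (brwLaw K mu)) ≤
        ENNReal.ofReal ((if x = y then 159 * (1 / 2) ^ (v.lev + 1 + (w.lev + 1)) * (1 / 4) ^ x.lev else 0) +
        14884 * ((1 / 2) ^ (v.lev + 1 + (w.lev + 1))) ^ 2 * ((1 / 4) ^ x.lev * (1 / 4) ^ y.lev)) := by
      intro y hy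
      have hy' := mem_VJ hy
      rw [win, Finset.mem_Ico] at hy'
      have e := lintegral_prod_mul (μ := brwLaw K mu) (ν := brwLaw K mu)
        (f := fun η => L (v.lev + 1) x (T + 1) v η * L (v.lev + 1) y (T + 1) v η)
        (g := fun η => L (w.lev + 1) x (T + 1) w η * L (w.lev + 1) y (T + 1) w η)
        ((measurable_L _ _ _ _).mul (measurable_L _ _ _ _)).aemeasurable
        ((measurable_L _ _ _ _).mul (measurable_L _ _ _ _)).aemeasurable
      rw [e]
      have h3 := E2_le (β := v.lev) (x := x) (y := y) (v := v) (by omega) (by omega) rfl T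
      have h4 := E2_le (β := w.lev) (x := x) (y := y) (v := w) (by omega) (by omega) rfl T
      refine (mul_le_mul' h3 h4).trans ?_
      rw [← ENNReal.ofReal_mul (B2_nonneg (by split_ifs <;> norm_num))]
      apply ENNReal.ofReal_le_ofReal
      have h5 := B2_mul_le (b := v.lev + 1) (b' := w.lev + 1) (n := x.lev) (m := y.lev)
        (δ := if x = y then 1 else 0)
        (by omega) (by omega) (by omega) (by omega) (by omega) (by omega) (by
          by_cases hxy : x = y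
          · right; rw [if_pos hxy]; exact ⟨rfl, by rw [hxy]⟩
          · left; rw [if_neg hxy])
      refine h5.trans (le_of_eq ?_)
      by_cases hxy : x = y
      · simp only [hxy, if_true, one_mul]
      · simp only [hxy, if_false, zero_mul]
    refine (Finset.sum_le_sum h2).trans ?_
    rw [← ENNReal.ofReal_sum_of_nonneg]
    · apply ENNReal.ofReal_le_ofReal
      rw [Finset.sum_add_distrib, Finset.sum_ite_eq, if_pos hx, ← Finset.mul_sum, ← Finset.mul_sum,
        sum_VJ (win v w) (fun n => (1 / 4 : ℝ) ^ n)]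
      have h6 : ∑ n ∈ win v w, (4 ^ n) • (1 / 4 : ℝ) ^ n = 2 ^ (v.lev + w.lev) := by
        rw [Finset.sum_congr rfl (g := fun _ => (1 : ℝ))]
        · rw [Finset.sum_const, card_win]; simp
        · intro n _
          rw [nsmul_eq_mul]
          push_cast
          rw [← mul_pow]; norm_num
      rw [h6]
      apply le_of_eq
      ring
    · intro y _
      split_ifs <;> positivity
  refine (Finset.sum_le_sum h1).trans ?_
  rw [← ENNReal.ofReal_sum_of_nonneg (fun x _ => by positivity)]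
  apply ENNReal.ofReal_le_ofReal
  rw [sum_VJ (win v w) (fun n => 159 * (1 / 2) ^ (v.lev + 1 + (w.lev + 1)) * (1 / 4 : ℝ) ^ n +
        14884 * ((1 / 2) ^ (v.lev + 1 + (w.lev + 1))) ^ 2 * 2 ^ (v.lev + w.lev) * (1 / 4) ^ n)]
  set N : ℝ := 2 ^ (v.lev + w.lev) with hN
  have hκ : (1 / 2 : ℝ) ^ (v.lev + 1 + (w.lev + 1)) * N = 1 / 4 := by
    rw [hN, show v.lev + 1 + (w.lev + 1) = (v.lev + w.lev) + 2 by omega, pow_add]
    have := two_mul_half (v.lev + w.lev)
    linear_combination (1 / 4 : ℝ) * this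
  set κ : ℝ := (1 / 2 : ℝ) ^ (v.lev + 1 + (w.lev + 1)) with hκd
  have h7 : ∑ n ∈ win v w, (4 ^ n) • (159 * κ * (1 / 4 : ℝ) ^ n + 14884 * κ ^ 2 * N * (1 / 4) ^ n) =
      N * (159 * κ + 14884 * κ ^ 2 * N) := by
    rw [Finset.sum_congr rfl (g := fun _ => 159 * κ + 14884 * κ ^ 2 * N)]
    · rw [Finset.sum_const, card_win, nsmul_eq_mul]
      push_cast
      rfl
    · intro n _
      rw [nsmul_eq_mul]
      push_cast
      have h4 : (4 : ℝ) ^ n * (1 / 4) ^ n = 1 := by rw [← mul_pow]; norm_num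
      linear_combination (159 * κ + 14884 * κ ^ 2 * N) * h4
  rw [h7]
  have h8 : N * (159 * κ + 14884 * κ ^ 2 * N) = 159 * (κ * N) + 14884 * (κ * N) ^ 2 := by ring
  rw [h8, hκ]
  norm_num

lemma mean1_tendsto : ∃ e : ℝ, 1 ≤ e ∧ Tendsto (fun T => mean1 v w T) atTop (𝓝 e) := by
  choose g hg1 hg2 using f_tendsto
  refine ⟨∑ n ∈ win v w, g (n - (v.lev + 1)) * g (n - (w.lev + 1)) * (1 / 4) ^ n, ?_, ?_⟩
  · have h1 : ∀ n ∈ win v w, 4 * (1 / 2 : ℝ) ^ (v.lev + 1 + (w.lev + 1)) ≤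
        g (n - (v.lev + 1)) * g (n - (w.lev + 1)) * (1 / 4) ^ n := by
      intro n hn
      rw [win, Finset.mem_Ico] at hn
      have h2 := hg1 (n - (v.lev + 1))
      have h3 := hg1 (n - (w.lev + 1))
      have h4 : (0 : ℝ) < 2 * 2 ^ (n - (v.lev + 1)) := by positivity
      have h5 : (0 : ℝ) < 2 * 2 ^ (n - (w.lev + 1)) := by positivity
      have h6 : 2 * 2 ^ (n - (v.lev + 1)) * (2 * 2 ^ (n - (w.lev + 1))) ≤
          g (n - (v.lev + 1)) * g (n - (w.lev + 1)) := mul_le_mul h2 h3 h5.le (h4.le.trans h2)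
      have h7 : (0 : ℝ) < (1 / 4) ^ n := by positivity
      refine le_trans (le_of_eq ?_) (mul_le_mul_of_nonneg_right h6 h7.le)
      rw [pow_sub_mul _ _ (by omega), pow_sub_mul _ _ (by omega), pow_add]
      have h8 : (2 : ℝ) ^ n * 2 ^ n * (1 / 4) ^ n = 1 := by
        rw [← mul_pow, ← mul_pow]; norm_num
      linear_combination -(4 * (1 / 2 : ℝ) ^ (v.lev + 1) * (1 / 2) ^ (w.lev + 1)) * h8
    refine le_trans ?_ (Finset.sum_le_sum h1)
    rw [Finset.sum_const, card_win, nsmul_eq_mul]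
    push_cast
    have h9 : (2 : ℝ) ^ (v.lev + w.lev) * (4 * (1 / 2) ^ (v.lev + 1 + (w.lev + 1))) = 1 := by
      rw [show v.lev + 1 + (w.lev + 1) = (v.lev + w.lev) + 2 by omega, pow_add]
      have := two_mul_half (v.lev + w.lev)
      linear_combination this
    rw [h9]
  · unfold mean1
    apply tendsto_finsetSum
    intro n _
    exact ((hg2 _).mul (hg2 _)).mul_const _

/-- uniform lower bound for the probability to meet -/
lemma meet_ge : ENNReal.ofReal (1 / 1000) ≤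
    ((brwLaw K mu).prod (brwLaw K mu)) {p | Meet v w p.1 p.2} := by
  set ν := (brwLaw K mu).prod (brwLaw K mu) with hν
  set q := ν {p | Meet v w p.1 p.2} with hq
  have hq1 : q ≠ ∞ := measure_ne_top _ _
  obtain ⟨e, he1, he2⟩ := mean1_tendsto v w
  have h1 : ∀ T, mean1 v w T ^ 2 ≤ 1000 * q.toReal := by
    intro T
    have hcs := cauchy_schwarz ν (Sig v w T) (measurable_Sig v w T)
    have h2 : ν {p | Sig v w T p ≠ 0} ≤ q := measure_mono (fun p hp => meet_of_Sig v w T hp)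
    have h3 := lintegral_Sig v w T
    have h4 := lintegral_Sig_sq v w T
    have h5 : ENNReal.ofReal (mean1 v w T) ^ 2 ≤ ENNReal.ofReal 1000 * q :=
      (pow_le_pow_left' h3 2).trans (hcs.trans (mul_le_mul' h4 h2))
    have hm0 : 0 ≤ mean1 v w T := by
      unfold mean1
      apply Finset.sum_nonneg
      intro n _
      have := f_nonneg T (n - (v.lev + 1)) 0
      have := f_nonneg T (n - (w.lev + 1)) 0
      positivity
    rw [← ENNReal.ofReal_pow hm0, ← ENNReal.ofReal_toReal hq1, ← ENNReal.ofReal_mul (by norm_num),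
      ENNReal.ofReal_le_ofReal_iff (by positivity)] at h5
    exact h5
  have h2 : e ^ 2 ≤ 1000 * q.toReal := le_of_tendsto' (he2.pow 2) h1
  rw [← ENNReal.ofReal_toReal hq1]
  apply ENNReal.ofReal_le_ofReal
  nlinarith

end

end Pool.Agent.Lib.MP_b68431_pr
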