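import Mathlib
import Pool.Agent.Lib.MP_b68431_pr.Second

set_option autoImplicit false

open MeasureTheory ProbabilityTheory Filter Topology
open scoped ENNReal

namespace Pool.Agent.Lib.MP_b68431_pr

/-- meeting within `T` generations -/
def MeetT (T : ℕ) (v w : Vx) (η η' : Om Vx) : Prop :=
  ∃ s t : List ℕ, s.length ≤ T ∧ t.length ≤ T ∧ alive η s ∧ alive η' t ∧ pos η v s = pos η' w t

lemma measurableSet_pos_eq (v w : Vx) (s t : List ℕ) :
    MeasurableSet {p : Om Vx × Om Vx | pos p.1 v s = pos p.2 w t} := by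
  have h1 : Measurable (fun p : Om Vx × Om Vx => pos p.1 v s) := (measurable_pos v s).comp measurable_fst
  have h2 : Measurable (fun p : Om Vx × Om Vx => pos p.2 w t) := (measurable_pos w t).comp measurable_snd
  have : {p : Om Vx × Om Vx | pos p.1 v s = pos p.2 w t} =
      ⋃ x : Vx, ((fun p : Om Vx × Om Vx => pos p.1 v s) ⁻¹' {x} ∩
        (fun p : Om Vx × Om Vx => pos p.2 w t) ⁻¹' {x}) := by
    ext p
    simp only [Set.mem_ofPred_eq, Set.mem_iUnion, Set.mem_inter_iff, Set.mem_preimage,
      Set.mem_singleton_iff]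
    constructor
    · intro h
      exact ⟨_, rfl, h.symm⟩
    · rintro ⟨x, h1, h2⟩
      rw [h1, h2]
  rw [this]
  exact MeasurableSet.iUnion (fun x => (h1 (measurableSet_singleton x)).inter
    (h2 (measurableSet_singleton x)))

lemma measurableSet_MeetT (T : ℕ) (v w : Vx) :
    MeasurableSet {p : Om Vx × Om Vx | MeetT T v w p.1 p.2} := by
  have : {p : Om Vx × Om Vx | MeetT T v w p.1 p.2} =
      ⋃ s : List ℕ, ⋃ t : List ℕ, ({p | s.length ≤ T ∧ t.length ≤ T} ∩
        ((Prod.fst ⁻¹' {η | alive η s}) ∩ ((Prod.snd ⁻¹' {η | alive η t}) ∩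
        {p | pos p.1 v s = pos p.2 w t}))) := by
    ext p
    simp only [MeetT, Set.mem_ofPred_eq, Set.mem_iUnion, Set.mem_inter_iff, Set.mem_preimage]
    constructor
    · rintro ⟨s, t, h1, h2, h3, h4, h5⟩
      exact ⟨s, t, ⟨h1, h2⟩, h3, h4, h5⟩
    · rintro ⟨s, t, ⟨h1, h2⟩, h3, h4, h5⟩
      exact ⟨s, t, h1, h2, h3, h4, h5⟩
  rw [this]
  apply MeasurableSet.iUnion
  intro s
  apply MeasurableSet.iUnion
  intro t
  exact (MeasurableSet.const _).inter ((measurable_fst (measurable_alive s)).inter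
    ((measurable_snd (measurable_alive t)).inter (measurableSet_pos_eq v w s t)))

lemma meet_iff (v w : Vx) (η η' : Om Vx) : Meet v w η η' ↔ ∃ T, MeetT T v w η η' := by
  constructor
  · rintro ⟨s, t, h1, h2, h3⟩
    exact ⟨max s.length t.length, s, t, le_max_left _ _, le_max_right _ _, h1, h2, h3⟩
  · rintro ⟨T, s, t, _, _, h1, h2, h3⟩
    exact ⟨s, t, h1, h2, h3⟩

lemma measurableSet_Meet (v w : Vx) : MeasurableSet {p : Om Vx × Om Vx | Meet v w p.1 p.2} := by
  have : {p : Om Vx × Om Vx | Meet v w p.1 p.2} = ⋃ T, {p | MeetT T v w p.1 p.2} := by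
    ext p
    simp only [Set.mem_ofPred_eq, Set.mem_iUnion]
    exact meet_iff v w p.1 p.2
  rw [this]
  exact MeasurableSet.iUnion (fun T => measurableSet_MeetT T v w)

lemma measurableSet_notMeet (v w : Vx) : MeasurableSet {p : Om Vx × Om Vx | ¬ Meet v w p.1 p.2} :=
  (measurableSet_Meet v w).compl

lemma measurableSet_notMeetT (T : ℕ) (v w : Vx) :
    MeasurableSet {p : Om Vx × Om Vx | ¬ MeetT T v w p.1 p.2} :=
  (measurableSet_MeetT T v w).compl

noncomputable abbrev PP : Measure (Om Vx × Om Vx) := (brwLaw K mu).prod (brwLaw K mu)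

/-- probability not to meet -/
noncomputable def no (v w : Vx) : ℝ≥0∞ := PP {p | ¬ Meet v w p.1 p.2}

noncomputable def noT (T : ℕ) (v w : Vx) : ℝ≥0∞ := PP {p | ¬ MeetT T v w p.1 p.2}

lemma no_le (v w : Vx) : no v w ≤ ENNReal.ofReal (999 / 1000) := by
  have h1 := meet_ge v w
  have h2 := prob_compl_eq_one_sub (μ := PP) (measurableSet_Meet v w)
  have h3 : no v w = PP {p | Meet v w p.1 p.2}ᶜ := rfl
  rw [h3, h2]
  calc 1 - PP {p | Meet v w p.1 p.2} ≤ 1 - ENNReal.ofReal (1 / 1000) := tsub_le_tsub_left h1 1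
    _ = ENNReal.ofReal (999 / 1000) := by
      rw [← ENNReal.ofReal_one, ← ENNReal.ofReal_sub _ (by norm_num)]
      norm_num

/-- every particle has a child, almost surely -/
lemma ae_children : ∀ᵐ ω ∂(brwLaw K mu), ∀ u : List ℕ, 0 < (ω u).1 := by
  rw [ae_all_iff]
  intro u
  rw [ae_iff]
  have h1 : {ω : Om Vx | ¬ 0 < (ω u).1} = (fun ω : Om Vx => ω u) ⁻¹' {e | ¬ 0 < e.1} := rfl
  have hm : MeasurableSet {e : Label Vx | ¬ 0 < e.1} :=
    measurable_fst (measurableSet_Ioi (a := 0)).compl
  rw [h1, ← Measure.map_apply (measurable_pi_apply u) hm, map_label]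
  have h2 : {e : Label Vx | ¬ 0 < e.1} = {k : ℕ | ¬ 0 < k} ×ˢ (Set.univ : Set (ℕ → Vx → Vx)) := by
    ext e; simp
  rw [h2, labelLaw, Measure.prod_prod]
  have h3 : {k : ℕ | ¬ 0 < k} = {0} := by ext k; simp
  rw [h3, PMF.toMeasure_apply_singleton mu 0 (measurableSet_singleton 0), mu_zero, zero_mul]

lemma alive_line {ω : Om Vx} (h : ∀ u : List ℕ, 0 < (ω u).1) (n : ℕ) :
    alive ω (List.replicate n 0) := by
  induction n with
  | zero => exact trivial
  | succ n ih =>
    rw [List.replicate_succ]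
    exact ⟨ih, h _⟩

lemma sh_sh (u v : List ℕ) (ω : Om Vx) : sh u (sh v ω) = sh (u ++ v) ω := by
  funext w
  simp only [sh, List.append_assoc]

/-- Markov property -/
lemma no_le_mul (v w : Vx) (T : ℕ) : no v w ≤ noT T v w * ENNReal.ofReal (999 / 1000) := by
  set rep := List.replicate T 0 with hrep
  have hrl : rep.length = T := by simp [hrep]
  set u := rep ++ [0] with hu
  set u' := rep ++ [1] with hu'
  have hul : u.length = T + 1 := by simp [hu, hrl]
  have hul' : u'.length = T + 1 := by simp [hu', hrl]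
  have hne : u ≠ u' := by
    intro h
    rw [hu, hu'] at h
    have := List.append_cancel_left h
    simp at this
  -- rewrite in terms of one field
  have hno : no v w = brwLaw K mu {ω | ¬ Meet v w (sh [0] ω) (sh [1] ω)} := by
    unfold no PP
    rw [← map_sh_sh K mu (u := [0]) (v := [1]) (by simp) (by simp),
      Measure.map_apply ((measurable_sh _).prodMk (measurable_sh _)) (measurableSet_notMeet v w)]
    rfl
  have hnoT : noT T v w = brwLaw K mu {ω | ¬ MeetT T v w (sh [0] ω) (sh [1] ω)} := by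
    unfold noT PP
    rw [← map_sh_sh K mu (u := [0]) (v := [1]) (by simp) (by simp),
      Measure.map_apply ((measurable_sh _).prodMk (measurable_sh _)) (measurableSet_notMeetT T v w)]
    rfl
  have hno2 : ∀ x y : Vx, no x y = brwLaw K mu {ω | ¬ Meet x y (sh u ω) (sh u' ω)} := by
    intro x y
    unfold no PP
    rw [← map_sh_sh K mu hne (hul.trans hul'.symm),
      Measure.map_apply ((measurable_sh _).prodMk (measurable_sh _)) (measurableSet_notMeet x y)]
    rfl
  -- the event up to generation T, with the positions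
  set A : Vx → Vx → Set (Om Vx) := fun x y =>
    {ω | ¬ MeetT T v w (sh [0] ω) (sh [1] ω) ∧ pos (sh [0] ω) v rep = x ∧ pos (sh [1] ω) w rep = y} with hA
  have hAm : ∀ x y, MeasurableSet (A x y) := by
    intro x y
    have e1 : MeasurableSet {ω : Om Vx | ¬ MeetT T v w (sh [0] ω) (sh [1] ω)} :=
      ((measurable_sh [0]).prodMk (measurable_sh [1])) (measurableSet_MeetT T v w).compl
    have e2 : MeasurableSet {ω : Om Vx | pos (sh [0] ω) v rep = x} :=
      ((measurable_pos v rep).comp (measurable_sh [0])) (measurableSet_singleton x)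
    have e3 : MeasurableSet {ω : Om Vx | pos (sh [1] ω) w rep = y} :=
      ((measurable_pos w rep).comp (measurable_sh [1])) (measurableSet_singleton y)
    exact e1.inter (e2.inter e3)
  -- invariance under `fr`
  have hfr : ∀ x y, fr (T + 1) ⁻¹' (A x y) = A x y := by
    intro x y
    ext ω
    have hsa : ∀ a : ℕ, ∀ s : List ℕ, s.length ≤ T →
        (alive (sh [a] (fr (T + 1) ω)) s ↔ alive (sh [a] ω) s) := by
      intro a s hs
      induction s with
      | nil => simp [alive]
      | cons c s ih =>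
        simp only [List.length_cons] at hs
        simp only [alive]
        rw [ih (by omega)]
        simp only [sh, fr, List.length_append, List.length_cons, List.length_nil]
        rw [if_pos (by omega)]
    have hsp : ∀ a : ℕ, ∀ (z : Vx) (s : List ℕ), s.length ≤ T →
        pos (sh [a] (fr (T + 1) ω)) z s = pos (sh [a] ω) z s := by
      intro a z s hs
      induction s with
      | nil => simp [pos]
      | cons c s ih =>
        simp only [List.length_cons] at hs
        simp only [pos]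
        rw [ih (by omega)]
        simp only [sh, fr, List.length_append, List.length_cons, List.length_nil]
        rw [if_pos (by omega)]
    have hmt : MeetT T v w (sh [0] (fr (T + 1) ω)) (sh [1] (fr (T + 1) ω)) ↔
        MeetT T v w (sh [0] ω) (sh [1] ω) := by
      unfold MeetT
      constructor
      · rintro ⟨s, t, h1, h2, h3, h4, h5⟩
        refine ⟨s, t, h1, h2, (hsa 0 s h1).mp h3, (hsa 1 t h2).mp h4, ?_⟩
        rw [← hsp 0 v s h1, ← hsp 1 w t h2, h5]
      · rintro ⟨s, t, h1, h2, h3, h4, h5⟩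
        refine ⟨s, t, h1, h2, (hsa 0 s h1).mpr h3, (hsa 1 t h2).mpr h4, ?_⟩
        rw [hsp 0 v s h1, hsp 1 w t h2, h5]
    simp only [hA, Set.mem_preimage, Set.mem_ofPred_eq]
    rw [hmt, hsp 0 v rep hrl.le, hsp 1 w rep hrl.le]
  have hind : ∀ x y, brwLaw K mu (A x y ∩ {ω | ¬ Meet x y (sh u ω) (sh u' ω)}) =
      brwLaw K mu (A x y) * no x y := by
    intro x y
    have h1 := (indep_fr_sh_sh K mu hul hul').measure_inter_preimage_eq_mul (A x y)
      {p | ¬ Meet x y p.1 p.2} (hAm x y) (measurableSet_Meet x y).compl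
    rw [hfr x y] at h1
    rw [hno2 x y]
    exact h1
  -- the inclusion
  have hincl : ∀ᵐ ω ∂(brwLaw K mu), ω ∈ {ω : Om Vx | ¬ Meet v w (sh [0] ω) (sh [1] ω)} →
      ω ∈ ⋃ p : Vx × Vx, (A p.1 p.2 ∩ {ω | ¬ Meet p.1 p.2 (sh u ω) (sh u' ω)}) := by
    filter_upwards [ae_children] with ω hω hnm
    rw [Set.mem_iUnion]
    refine ⟨(pos (sh [0] ω) v rep, pos (sh [1] ω) w rep), ⟨?_, rfl, rfl⟩, ?_⟩
    · intro hm
      exact hnm ((meet_iff _ _ _ _).mpr ⟨T, hm⟩)
    · rintro ⟨s, t, h1, h2, h3⟩
      apply hnm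
      have ha0 : alive (sh [0] ω) rep := alive_line (fun z => hω _) T
      have ha1 : alive (sh [1] ω) rep := alive_line (fun z => hω _) T
      rw [hu, ← sh_sh] at h1 h3
      rw [hu', ← sh_sh] at h2 h3
      refine ⟨s ++ rep, t ++ rep, ?_, ?_, ?_⟩
      · rw [alive_append]; exact ⟨ha0, h1⟩
      · rw [alive_append]; exact ⟨ha1, h2⟩
      · rw [pos_append, pos_append]; exact h3
  rw [hno, hnoT]
  have hAdisj : ∀ p q : Vx × Vx, p ≠ q → Disjoint (A p.1 p.2) (A q.1 q.2) := by
    intro p q hpq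
    rw [Set.disjoint_left]
    rintro ω ⟨_, h1, h2⟩ ⟨_, h3, h4⟩
    exact hpq (Prod.ext (h1.symm.trans h3) (h2.symm.trans h4))
  calc brwLaw K mu {ω | ¬ Meet v w (sh [0] ω) (sh [1] ω)}
      ≤ brwLaw K mu (⋃ p : Vx × Vx, (A p.1 p.2 ∩ {ω | ¬ Meet p.1 p.2 (sh u ω) (sh u' ω)})) :=
        measure_mono_ae hincl
    _ ≤ ∑' p : Vx × Vx, brwLaw K mu (A p.1 p.2 ∩ {ω | ¬ Meet p.1 p.2 (sh u ω) (sh u' ω)}) :=
        measure_iUnion_le _
    _ = ∑' p : Vx × Vx, brwLaw K mu (A p.1 p.2) * no p.1 p.2 := by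
        apply tsum_congr
        intro p
        exact hind p.1 p.2
    _ ≤ ∑' p : Vx × Vx, brwLaw K mu (A p.1 p.2) * ENNReal.ofReal (999 / 1000) := by
        apply ENNReal.tsum_le_tsum
        intro p
        exact mul_le_mul_right (no_le p.1 p.2) _
    _ = (∑' p : Vx × Vx, brwLaw K mu (A p.1 p.2)) * ENNReal.ofReal (999 / 1000) :=
        ENNReal.tsum_mul_right
    _ = brwLaw K mu (⋃ p : Vx × Vx, A p.1 p.2) * ENNReal.ofReal (999 / 1000) := by
        rw [measure_iUnion (fun p q hpq => hAdisj p q hpq) (fun p => hAm p.1 p.2)]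
    _ ≤ brwLaw K mu {ω | ¬ MeetT T v w (sh [0] ω) (sh [1] ω)} * ENNReal.ofReal (999 / 1000) := by
        apply mul_le_mul_left
        apply measure_mono
        intro ω hω
        rw [Set.mem_iUnion] at hω
        obtain ⟨p, hp⟩ := hω
        exact hp.1

lemma no_eq_zero (v w : Vx) : no v w = 0 := by
  have h1 : Tendsto (fun T => noT T v w) atTop (𝓝 (no v w)) := by
    have hset : {p : Om Vx × Om Vx | ¬ Meet v w p.1 p.2} = ⋂ T, {p | ¬ MeetT T v w p.1 p.2} := by
      ext p
      simp only [Set.mem_ofPred_eq, Set.mem_iInter]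
      rw [meet_iff]
      push Not
      rfl
    unfold noT no
    rw [hset]
    apply tendsto_measure_iInter_atTop
    · intro T
      exact (measurableSet_MeetT T v w).compl.nullMeasurableSet
    · intro T T' hTT' p hp
      simp only [Set.mem_ofPred_eq] at hp ⊢
      intro hm
      apply hp
      obtain ⟨s, t, h1, h2, h3⟩ := hm
      exact ⟨s, t, h1.trans hTT', h2.trans hTT', h3⟩
    · exact ⟨0, measure_ne_top _ _⟩
  have h2 : no v w ≤ no v w * ENNReal.ofReal (999 / 1000) := by
    have h3 : Tendsto (fun T => noT T v w * ENNReal.ofReal (999 / 1000)) atTop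
        (𝓝 (no v w * ENNReal.ofReal (999 / 1000))) := by
      apply ENNReal.Tendsto.mul_const h1
      right
      exact ENNReal.ofReal_ne_top
    exact ge_of_tendsto' h3 (fun T => no_le_mul v w T)
  have hfin : no v w ≠ ∞ := measure_ne_top _ _
  rw [← ENNReal.ofReal_toReal hfin, ← ENNReal.ofReal_mul ENNReal.toReal_nonneg,
    ENNReal.ofReal_le_ofReal_iff (mul_nonneg ENNReal.toReal_nonneg (by norm_num))] at h2
  have h3 : (no v w).toReal = 0 := by
    have := ENNReal.toReal_nonneg (a := no v w)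
    linarith
  rw [ENNReal.toReal_eq_zero_iff] at h3
  exact h3.resolve_right hfin

/-- the main theorem for the example -/
theorem ae_one_ended (i : Vx) : ∀ᵐ ω ∂(brwLaw K mu), numEnds (trace ω i) = 1 := by
  have hG2 : ∀ᵐ ω ∂(brwLaw K mu), ∀ x : Vx, {u | alive ω u ∧ pos ω i u = x}.Finite := by
    rw [ae_all_iff]
    intro x
    exact ae_finite_visits K mu i x (green_ne_top i x)
  have hG3 : ∀ᵐ ω ∂(brwLaw K mu), ∀ u v : List ℕ, u ≠ v → u.length = v.length → ∀ x y : Vx,
      Meet x y (sh u ω) (sh v ω) := by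
    rw [ae_all_iff]
    intro u
    rw [ae_all_iff]
    intro v
    by_cases hne : u ≠ v
    · by_cases hl : u.length = v.length
      · have h1 : ∀ᵐ ω ∂(brwLaw K mu), ∀ x y : Vx, Meet x y (sh u ω) (sh v ω) := by
          rw [ae_all_iff]
          intro x
          rw [ae_all_iff]
          intro y
          rw [ae_iff]
          have h2 := no_eq_zero x y
          unfold no PP at h2
          rw [← map_sh_sh K mu hne hl, Measure.map_apply ((measurable_sh _).prodMk (measurable_sh _))
            (measurableSet_notMeet x y)] at h2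
          exact h2
        filter_upwards [h1] with ω hω _ _ x y
        exact hω x y
      · exact Eventually.of_forall (fun ω _ h => absurd h hl)
    · exact Eventually.of_forall (fun ω h => absurd h hne)
  filter_upwards [ae_children, hG2, hG3] with ω h1 h2 h3
  apply numEnds_trace_eq_one ω i h1 h2
  intro u v hl hu hv
  by_cases hne : u = v
  · subst hne
    exact ⟨[], [], trivial, trivial, rfl⟩
  · obtain ⟨s, t, hs, ht, he⟩ := h3 u v hne hl (pos ω i u) (pos ω i v)
    exact ⟨s, t, hs, ht, he⟩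

end Pool.Agent.Lib.MP_b68431_pr
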